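import Pool.Agent.H270.QD.Main
import Pool.Agent.H270.QD.Club
import Pool.Agent.H270.QD.Num
import Pool.Agent.H270.QD.Canon
import Pool.Agent.H270.QD.Pos
import Pool.Agent.H270.QD.Two
import Pool.Agent.H270.QD.OmA
import Pool.Agent.H270.QD.Ando
import Pool.Agent.H270.QD.Fact
import Pool.Agent.H270.QD.Sim0
import Pool.Agent.H270.QD.Sim
import Pool.Agent.H270.QD.VN
import Pool.Agent.H270.QD.Cpl
import Pool.Agent.H270.QP.Nil
import Pool.Graph.R_pool_sql_team_seeded_620a6dc7.Results.MP_16d611_an.ScaledRangeBound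

/-!
# Scaled q-numerical ranges contained in a disc

Let `Ω_q(A) = {⟨Ax,y⟩/q : ‖x‖ = ‖y‖ = 1, ⟨x,y⟩ = q}` and `c(q) = max 1 (2|q|/(1+√(1-|q|²)))`, the constant of the
problem. Suppose that `Ω_q(A)` is contained in the closed disc `D` with centre `t` and radius `r`.

* (class `C_ρ`) With `ρ = c(q)`, every unit vector `x` satisfies
  `(2-ρ) ‖(A-t)x‖² + 2(ρ-1) r |⟨(A-t)x,x⟩| ≤ ρ r²`. For `r > 0` this says that `(A-t)/r` belongs to the class `C_ρ`
  of Sz.-Nagy and Foias.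
* (similarity) There is an invertible `S` with `‖S‖ ‖S⁻¹‖ ≤ c(q)` and `‖S (A-t) S⁻¹‖ ≤ r`.
* (complete bound) `‖P(A)‖ ≤ c(q) sup_D ‖P‖` for all square matrices `P` of polynomials.
* (sharpness) `c(q)` is the least possible constant in each of the three statements.
-/

set_option autoImplicit false

open Polynomial Matrix

namespace Pool.Agent.Results.MP_16d611_an.DiscSimilarity

/-- The `q`-numerical range `W_q(A) = {⟨Ax, y⟩ : ‖x‖ = ‖y‖ = 1, ⟨x, y⟩ = q}`, where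
`⟨x, y⟩ = ∑ i, x i * conj (y i)` is `x ⬝ᵥ star y`. -/
def qRange {n : ℕ} (q : ℂ) (A : Matrix (Fin n) (Fin n) ℂ) : Set ℂ :=
  {w | ∃ x y : Fin n → ℂ, x ⬝ᵥ star x = 1 ∧ y ⬝ᵥ star y = 1 ∧ x ⬝ᵥ star y = q ∧
    w = (A *ᵥ x) ⬝ᵥ star y}

/-- The scaled `q`-numerical range `Ω_q(A) = W_q(A) / q`. -/
def scaledRange {n : ℕ} (q : ℂ) (A : Matrix (Fin n) (Fin n) ℂ) : Set ℂ :=
  {z | ∃ w ∈ qRange q A, z = w / q}

/-- The constant of the problem, `c(q) = max 1 (2|q| / (1 + √(1 - |q|²)))`. -/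
noncomputable def cq (q : ℂ) : ℝ := max 1 (2 * ‖q‖ / (1 + √(1 - ‖q‖ ^ 2)))

/-- `‖v‖² = ∑ |v i|²`. -/
noncomputable def nsq {n : ℕ} (v : Fin n → ℂ) : ℝ := ∑ i, ‖v i‖ ^ 2

/-- The operator norm of a square matrix for the Euclidean norm (any finite index type). -/
noncomputable def opNorm {ι : Type*} [Fintype ι] [DecidableEq ι] (A : Matrix ι ι ℂ) : ℝ :=
  ‖Matrix.toEuclideanCLM (n := ι) (𝕜 := ℂ) A‖

/-- The block matrix `P(A)` with blocks `P i j (A)`, for an `m × m` matrix `P` of polynomials. -/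
noncomputable def evalMat {m n : ℕ} (P : Matrix (Fin m) (Fin m) ℂ[X])
    (A : Matrix (Fin n) (Fin n) ℂ) : Matrix (Fin m × Fin n) (Fin m × Fin n) ℂ :=
  fun a b => (aeval A (P a.1 b.1)) a.2 b.2

/-- `Class ρ r B`: `(2-ρ) ‖Bx‖² + 2(ρ-1) r |⟨Bx,x⟩| ≤ ρ r²` for all unit vectors `x`. For `1 ≤ ρ ≤ 2`, `r > 0` this is
the well known description of the operators `B` such that `B/r` is in the class `C_ρ`. -/
def Class {n : ℕ} (ρ r : ℝ) (B : Matrix (Fin n) (Fin n) ℂ) : Prop :=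
  ∀ x : Fin n → ℂ, x ⬝ᵥ star x = 1 →
    (2 - ρ) * nsq (B *ᵥ x) + 2 * (ρ - 1) * r * ‖(B *ᵥ x) ⬝ᵥ star x‖ ≤ ρ * r ^ 2

/-- `Similar c r B`: there is an invertible `S` with `‖S‖ ‖S⁻¹‖ ≤ c` and `‖S B S⁻¹‖ ≤ r`. -/
def Similar {n : ℕ} (c r : ℝ) (B : Matrix (Fin n) (Fin n) ℂ) : Prop :=
  ∃ S R : Matrix (Fin n) (Fin n) ℂ, S * R = 1 ∧ R * S = 1 ∧ opNorm S * opNorm R ≤ c ∧
    opNorm (S * B * R) ≤ r

/-- `CompleteBound c t r A`: `‖P(A)‖ ≤ c M` for all square matrices `P` of polynomials with `‖P(z)‖ ≤ M` for all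
`z` with `|z - t| ≤ r`. -/
def CompleteBound {n : ℕ} (c : ℝ) (t : ℂ) (r : ℝ) (A : Matrix (Fin n) (Fin n) ℂ) : Prop :=
  ∀ (m : ℕ) (P : Matrix (Fin m) (Fin m) ℂ[X]) (M : ℝ),
    (∀ z : ℂ, ‖z - t‖ ≤ r → opNorm (P.map (fun p => p.eval z)) ≤ M) → opNorm (evalMat P A) ≤ c * M

section aux

variable {n : ℕ}

open Pool.Agent.H270.QP Pool.Agent.H270.QD Pool.Agent.Helper324_QNR

theorem scaledRange_eq (q : ℂ) (A : Matrix (Fin n) (Fin n) ℂ) :
    scaledRange q A = Om (Matrix.toEuclideanCLM (n := Fin n) (𝕜 := ℂ) A) q :=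
  Pool.Agent.Results.MP_16d611_an.ScaledRangeBound.scaledRange_eq q A

theorem nsq_eq (v : Fin n → ℂ) : nsq v = ‖(WithLp.toLp 2 v : EuclideanSpace ℂ (Fin n))‖ ^ 2 := by
  rw [EuclideanSpace.norm_sq_eq]
  rfl

theorem inner_eq (u v : Fin n → ℂ) :
    inner ℂ (WithLp.toLp 2 v : EuclideanSpace ℂ (Fin n)) (WithLp.toLp 2 u) = u ⬝ᵥ star v :=
  Pool.Agent.Results.MP_16d611_an.ScaledRangeBound.inner_eq u v

theorem norm_iff (v : Fin n → ℂ) :
    ‖(WithLp.toLp 2 v : EuclideanSpace ℂ (Fin n))‖ = 1 ↔ v ⬝ᵥ star v = 1 :=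
  Pool.Agent.Results.MP_16d611_an.ScaledRangeBound.norm_eq_one_iff' v

theorem cq_eq (q : ℂ) : cq q = max 1 (Kc q) := rfl

theorem apply_eq (A : Matrix (Fin n) (Fin n) ℂ) (x : Fin n → ℂ) :
    Matrix.toEuclideanCLM (n := Fin n) (𝕜 := ℂ) A (WithLp.toLp 2 x) = WithLp.toLp 2 (A *ᵥ x) := rfl

theorem clm_sub (A : Matrix (Fin n) (Fin n) ℂ) (t : ℂ) :
    Matrix.toEuclideanCLM (n := Fin n) (𝕜 := ℂ) (A - t • (1 : Matrix (Fin n) (Fin n) ℂ)) =
      Matrix.toEuclideanCLM (n := Fin n) (𝕜 := ℂ) A - t • 1 := by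
  rw [map_sub, map_smul, map_one]

theorem class_iff (ρ r : ℝ) (B : Matrix (Fin n) (Fin n) ℂ) :
    Class ρ r B ↔ ∀ x : EuclideanSpace ℂ (Fin n), ‖x‖ = 1 →
      (2 - ρ) * ‖Matrix.toEuclideanCLM (n := Fin n) (𝕜 := ℂ) B x‖ ^ 2 +
        2 * (ρ - 1) * r * ‖(inner ℂ x (Matrix.toEuclideanCLM (n := Fin n) (𝕜 := ℂ) B x) : ℂ)‖ ≤
          ρ * r ^ 2 := by
  constructor
  · intro h x hx
    have h1 := h (WithLp.ofLp x) ((norm_iff _).mp (by simpa using hx))
    rw [nsq_eq, ← inner_eq, ← apply_eq] at h1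
    exact h1
  · intro h x hx
    rw [nsq_eq, ← inner_eq, ← apply_eq]
    exact h (WithLp.toLp 2 x) ((norm_iff x).mpr hx)

theorem similar_iff (c r : ℝ) (B : Matrix (Fin n) (Fin n) ℂ) :
    Similar c r B ↔ ∃ S R : EuclideanSpace ℂ (Fin n) →L[ℂ] EuclideanSpace ℂ (Fin n),
      S * R = 1 ∧ R * S = 1 ∧ ‖S‖ * ‖R‖ ≤ c ∧
        ‖S * Matrix.toEuclideanCLM (n := Fin n) (𝕜 := ℂ) B * R‖ ≤ r := by
  constructor
  · rintro ⟨S, R, h1, h2, h3, h4⟩
    refine ⟨Matrix.toEuclideanCLM (n := Fin n) (𝕜 := ℂ) S,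
      Matrix.toEuclideanCLM (n := Fin n) (𝕜 := ℂ) R, ?_, ?_, h3, ?_⟩
    · rw [← map_mul, h1, map_one]
    · rw [← map_mul, h2, map_one]
    · rw [← map_mul, ← map_mul]
      exact h4
  · rintro ⟨S, R, h1, h2, h3, h4⟩
    refine ⟨(Matrix.toEuclideanCLM (n := Fin n) (𝕜 := ℂ)).symm S,
      (Matrix.toEuclideanCLM (n := Fin n) (𝕜 := ℂ)).symm R, ?_, ?_, ?_, ?_⟩
    · rw [← map_mul, h1, map_one]
    · rw [← map_mul, h2, map_one]
    · rw [opNorm, opNorm, StarAlgEquiv.apply_symm_apply, StarAlgEquiv.apply_symm_apply]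
      exact h3
    · rw [opNorm, map_mul, map_mul, StarAlgEquiv.apply_symm_apply, StarAlgEquiv.apply_symm_apply]
      exact h4

theorem sub_iff (q t : ℂ) (r : ℝ) (A : Matrix (Fin n) (Fin n) ℂ) :
    scaledRange q A ⊆ Metric.closedBall t r ↔
      ∀ z ∈ Om (Matrix.toEuclideanCLM (n := Fin n) (𝕜 := ℂ) A) q, ‖z - t‖ ≤ r := by
  rw [scaledRange_eq]
  constructor
  · intro h z hz
    have := h hz
    rwa [Metric.mem_closedBall, dist_eq_norm] at this
  · intro h z hz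
    rw [Metric.mem_closedBall, dist_eq_norm]
    exact h z hz

theorem ev1 (p : ℂ[X]) (B : Matrix (Fin n) (Fin n) ℂ) (x : Fin n → ℂ) :
    (evalMat (m := 1) (fun _ _ => p) B) *ᵥ (fun a => x a.2) = fun a => ((aeval B p) *ᵥ x) a.2 := by
  ext a
  simp [Matrix.mulVec, dotProduct, Fintype.sum_prod_type, evalMat]

theorem norm1 (x : Fin n → ℂ) :
    ‖(WithLp.toLp 2 (fun a : Fin 1 × Fin n => x a.2) : EuclideanSpace ℂ (Fin 1 × Fin n))‖ =
      ‖(WithLp.toLp 2 x : EuclideanSpace ℂ (Fin n))‖ := by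
  rw [EuclideanSpace.norm_eq, EuclideanSpace.norm_eq]
  simp [Fintype.sum_prod_type]

theorem op_one_le (M : Matrix (Fin 1) (Fin 1) ℂ) (h : ‖M 0 0‖ ≤ 1) : opNorm M ≤ 1 := by
  refine ContinuousLinearMap.opNorm_le_bound _ zero_le_one (fun x => ?_)
  rw [EuclideanSpace.norm_eq, EuclideanSpace.norm_eq, one_mul]
  refine Real.sqrt_le_sqrt ?_
  have e1 : (Matrix.toEuclideanCLM (n := Fin 1) (𝕜 := ℂ) M x).ofLp = M *ᵥ x.ofLp := rfl
  simp only [Finset.univ_unique, Fin.default_eq_zero, Fin.isValue, Finset.sum_singleton]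
  rw [e1]
  simp only [Matrix.mulVec, dotProduct, Finset.univ_unique, Fin.default_eq_zero, Fin.isValue,
    Finset.sum_singleton, norm_mul]
  have h1 := norm_nonneg (x.ofLp 0)
  have h2 := norm_nonneg (M 0 0)
  have h3 : ‖M 0 0‖ * ‖x.ofLp 0‖ ≤ ‖x.ofLp 0‖ := by nlinarith
  exact pow_le_pow_left₀ (by positivity) h3 2

theorem op_ev1 (p : ℂ[X]) (B : Matrix (Fin n) (Fin n) ℂ) :
    opNorm (aeval B p) ≤ opNorm (evalMat (m := 1) (fun _ _ => p) B) := by
  refine ContinuousLinearMap.opNorm_le_bound _ (norm_nonneg _) (fun x => ?_)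
  have h1 := (Matrix.toEuclideanCLM (n := Fin 1 × Fin n) (𝕜 := ℂ)
    (evalMat (m := 1) (fun _ _ => p) B)).le_opNorm (WithLp.toLp 2 (fun a => x.ofLp a.2))
  have e1 : Matrix.toEuclideanCLM (n := Fin 1 × Fin n) (𝕜 := ℂ) (evalMat (m := 1) (fun _ _ => p) B)
      (WithLp.toLp 2 (fun a => x.ofLp a.2)) =
        WithLp.toLp 2 ((evalMat (m := 1) (fun _ _ => p) B) *ᵥ (fun a => x.ofLp a.2)) := rfl
  rw [e1, ev1, norm1, norm1] at h1
  exact h1

end aux

/-- **Theorem.** Let `n ≥ 2` and `0 < |q| ≤ 1`.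
(1) If `Ω_q(A)` lies in the closed disc with centre `t` and radius `r`, then `A - t` satisfies the inequality of the
class `C_ρ` with `ρ = c(q)`, `A - t` is similar to an operator of norm at most `r` with condition number at most
`c(q)`, and `‖P(A)‖ ≤ c(q) sup ‖P‖` over the disc for all square matrices `P` of polynomials.
(2) In each of these statements `c(q)` is the least possible constant, already for the unit disc (for the first
statement: among the `ρ` in `[1,2]`). -/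
theorem result (n : ℕ) (hn : 2 ≤ n) (q : ℂ) (hq0 : 0 < ‖q‖) (hq1 : ‖q‖ ≤ 1) :
    (∀ (A : Matrix (Fin n) (Fin n) ℂ) (t : ℂ) (r : ℝ), scaledRange q A ⊆ Metric.closedBall t r →
      Class (cq q) r (A - t • (1 : Matrix (Fin n) (Fin n) ℂ)) ∧
      Similar (cq q) r (A - t • (1 : Matrix (Fin n) (Fin n) ℂ)) ∧ CompleteBound (cq q) t r A) ∧
    IsLeast {ρ : ℝ | 1 ≤ ρ ∧ ρ ≤ 2 ∧ ∀ A : Matrix (Fin n) (Fin n) ℂ,
      scaledRange q A ⊆ Metric.closedBall 0 1 → Class ρ 1 A} (cq q) ∧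
    IsLeast {c : ℝ | ∀ A : Matrix (Fin n) (Fin n) ℂ,
      scaledRange q A ⊆ Metric.closedBall 0 1 → Similar c 1 A} (cq q) ∧
    IsLeast {c : ℝ | ∀ A : Matrix (Fin n) (Fin n) ℂ,
      scaledRange q A ⊆ Metric.closedBall 0 1 → CompleteBound c 0 1 A} (cq q) := by
  have ho : Pool.Agent.H270.QP.HasOrth (EuclideanSpace ℂ (Fin n)) :=
    Pool.Agent.Results.MP_16d611_an.ScaledRangeBound.exists_orth hn
  have : Nontrivial (EuclideanSpace ℂ (Fin n)) := by
    obtain ⟨w, hw, -⟩ := ho 0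
    exact ⟨⟨w, 0, fun h => by rw [h, norm_zero] at hw; exact zero_ne_one hw⟩⟩
  have hnum := Pool.Agent.H270.QD.t_num Pool.Agent.H270.QD.t_club
  have h2 := Pool.Agent.H270.QD.t_two (EuclideanSpace ℂ (Fin n)) hnum
    (Pool.Agent.H270.QD.t_canon _) (Pool.Agent.H270.QD.t_pos _)
  have hom := Pool.Agent.H270.QD.t_om (EuclideanSpace ℂ (Fin n))
  have hs := Pool.Agent.H270.QD.t_sim (EuclideanSpace ℂ (Fin n))
    (Pool.Agent.H270.QD.t_sim0 _ (Pool.Agent.H270.QD.t_fact _ (Pool.Agent.H270.QD.t_ando _)))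
  have hcpl := Pool.Agent.H270.QD.t_cpl Pool.Agent.H270.QD.t_vN
  have hnil := Pool.Agent.H270.QP.t_nil (EuclideanSpace ℂ (Fin n))
  have hn0 : 0 < n := by omega
  let T := Matrix.toEuclideanCLM (n := Fin n) (𝕜 := ℂ)
  -- an orthonormal pair
  obtain ⟨e, he, -⟩ := ho 0
  obtain ⟨f, hf, hef⟩ := ho e
  have hfe : inner ℂ f e = (0 : ℂ) := by rw [← inner_conj_symm, hef, map_zero]
  -- nonnegative radius
  have hrad : ∀ (A : Matrix (Fin n) (Fin n) ℂ) (t : ℂ) (r : ℝ),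
      scaledRange q A ⊆ Metric.closedBall t r → 0 ≤ r := by
    intro A t r h
    obtain ⟨-, ⟨z, hz⟩, -⟩ := Pool.Agent.Results.MP_16d611_an.ScaledRangeBound.result n A q hq0 hq1
      (Or.inl hn) 0
    have := h (show z ∈ scaledRange q A from hz)
    rw [Metric.mem_closedBall] at this
    exact dist_nonneg.trans this
  have hclass : ∀ (A : Matrix (Fin n) (Fin n) ℂ) (t : ℂ) (r : ℝ),
      scaledRange q A ⊆ Metric.closedBall t r →
        Class (cq q) r (A - t • (1 : Matrix (Fin n) (Fin n) ℂ)) := by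
    intro A t r h
    rw [class_iff]
    intro x hx
    have h1 := Pool.Agent.H270.QD.crho_main h2 hom (T A) q hq0 hq1 (Or.inr ho) t r (hrad A t r h)
      ((sub_iff q t r A).mp h) x hx
    rw [clm_sub]
    exact h1
  have hsim : ∀ (A : Matrix (Fin n) (Fin n) ℂ) (t : ℂ) (r : ℝ),
      scaledRange q A ⊆ Metric.closedBall t r →
        Similar (cq q) r (A - t • (1 : Matrix (Fin n) (Fin n) ℂ)) := by
    intro A t r h
    rw [similar_iff, clm_sub]
    exact Pool.Agent.H270.QD.sim_main h2 hom hs (T A) q hq0 hq1 (Or.inr ho) t r (hrad A t r h)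
      ((sub_iff q t r A).mp h)
  have hcb : ∀ (A : Matrix (Fin n) (Fin n) ℂ) (t : ℂ) (r : ℝ),
      scaledRange q A ⊆ Metric.closedBall t r → CompleteBound (cq q) t r A := by
    intro A t r h m P M hP
    have hr := hrad A t r h
    have hM : 0 ≤ M := (norm_nonneg _).trans (hP t (by rw [sub_self, norm_zero]; exact hr))
    obtain ⟨S, R, hSR, hRS, hc, hT⟩ := hsim A t r h
    refine (hcpl m n P M r t hM hr hP A S R hSR hRS hT).trans ?_
    exact mul_le_mul_of_nonneg_right hc hM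
  have hsub1 : ∀ A : Matrix (Fin n) (Fin n) ℂ, A - (0 : ℂ) • (1 : Matrix (Fin n) (Fin n) ℂ) = A := by
    intro A
    rw [zero_smul, sub_zero]
  have hback : ∀ B : EuclideanSpace ℂ (Fin n) →L[ℂ] EuclideanSpace ℂ (Fin n),
      (∀ z ∈ Pool.Agent.Helper324_QNR.Om B q, ‖z‖ ≤ 1) →
        scaledRange q (T.symm B) ⊆ Metric.closedBall 0 1 := by
    intro B hB
    rw [sub_iff]
    intro z hz
    rw [sub_zero]
    have e1 : Matrix.toEuclideanCLM (n := Fin n) (𝕜 := ℂ) (T.symm B) = B :=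
      StarAlgEquiv.apply_symm_apply _ _
    rw [e1] at hz
    exact hB z hz
  refine ⟨fun A t r h => ⟨hclass A t r h, hsim A t r h, hcb A t r h⟩, ⟨⟨?_, ?_, ?_⟩, ?_⟩,
    ⟨?_, ?_⟩, ⟨?_, ?_⟩⟩
  · exact Pool.Agent.H270.QD.rho_ge q
  · exact Pool.Agent.H270.QD.rho_le q hq0 hq1
  · intro A h
    have := hclass A 0 1 h
    rwa [hsub1] at this
  · rintro ρ ⟨h1, h3, h⟩
    refine Pool.Agent.H270.QD.sharp_rho hs hnil e f he hf hfe q hq0 hq1 ρ h1 h3 (fun B hB => ?_)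
    have h4 := h (T.symm B) (hback B hB)
    rw [class_iff] at h4
    have e1 : Matrix.toEuclideanCLM (n := Fin n) (𝕜 := ℂ) (T.symm B) = B :=
      StarAlgEquiv.apply_symm_apply _ _
    rw [e1] at h4
    intro x
    rcases eq_or_ne x 0 with rfl | hx
    · simp
    · have hn1 : 0 < ‖x‖ := norm_pos_iff.mpr hx
      have hu : ‖((‖x‖⁻¹ : ℝ) : ℂ) • x‖ = 1 := by
        rw [norm_smul, Complex.norm_real, Real.norm_of_nonneg (by positivity)]
        field_simp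
      have h5 := h4 _ hu
      rw [map_smul, norm_smul, Complex.norm_real,
        Real.norm_of_nonneg (by positivity : (0:ℝ) ≤ ‖x‖⁻¹),
        inner_smul_left, inner_smul_right, Complex.conj_ofReal, norm_mul, norm_mul,
        Complex.norm_real, Real.norm_of_nonneg (by positivity : (0:ℝ) ≤ ‖x‖⁻¹)] at h5
      have h6 := mul_le_mul_of_nonneg_right h5 (by positivity : (0:ℝ) ≤ ‖x‖ ^ 2)
      have e2 : ((2 - ρ) * (‖x‖⁻¹ * ‖B x‖) ^ 2 + 2 * (ρ - 1) * 1 *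
          (‖x‖⁻¹ * (‖x‖⁻¹ * ‖(inner ℂ x (B x) : ℂ)‖))) * ‖x‖ ^ 2 =
          (2 - ρ) * ‖B x‖ ^ 2 + 2 * (ρ - 1) * ‖(inner ℂ x (B x) : ℂ)‖ := by
        field_simp
      rw [e2] at h6
      linarith
  · intro A h
    have := hsim A 0 1 h
    rwa [hsub1] at this
  · intro c h
    refine Pool.Agent.H270.QD.sharp_sim hnil e f he hf hfe q hq0 hq1 c (fun B hB => ?_)
    have h4 := h (T.symm B) (hback B hB)
    rw [similar_iff] at h4
    have e1 : Matrix.toEuclideanCLM (n := Fin n) (𝕜 := ℂ) (T.symm B) = B :=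
      StarAlgEquiv.apply_symm_apply _ _
    rwa [e1] at h4
  · intro A h
    exact hcb A 0 1 h
  · intro c h
    -- the polynomials `1` and `X`
    have hpoly : ∀ (B : Matrix (Fin n) (Fin n) ℂ), scaledRange q B ⊆ Metric.closedBall 0 1 →
        ∀ p : ℂ[X], (∀ z : ℂ, ‖z‖ ≤ 1 → ‖p.eval z‖ ≤ 1) → opNorm (aeval B p) ≤ c := by
      intro B hB p hp
      have h5 := h B hB 1 (fun _ _ => p) 1 (fun z hz => op_one_le _ (by
        rw [sub_zero] at hz
        exact hp z hz))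
      rw [mul_one] at h5
      exact (op_ev1 p B).trans h5
    have hJ := hback _ (Pool.Agent.H270.QD.KJ_om hnil e f he hf hfe q hq0 hq1)
    refine max_le ?_ ?_
    · have h6 := hpoly _ hJ 1 (fun z _ => by simp)
      rw [map_one, opNorm, map_one, norm_one] at h6
      exact h6
    · have h6 := hpoly _ hJ X (fun z hz => by simpa using hz)
      rw [aeval_X, opNorm] at h6
      have e1 : Matrix.toEuclideanCLM (n := Fin n) (𝕜 := ℂ)
          (T.symm ((Pool.Agent.H270.QP.Kc q : ℂ) • Pool.Agent.H270.QP.J _ e f)) =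
            (Pool.Agent.H270.QP.Kc q : ℂ) • Pool.Agent.H270.QP.J _ e f :=
        StarAlgEquiv.apply_symm_apply _ _
      rw [e1] at h6
      exact (Pool.Agent.H270.QD.KJ_norm e f he hf q hq0).trans h6

end Pool.Agent.Results.MP_16d611_an.DiscSimilarity
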