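import Pool.Agent.H243.CE.AllM
import Pool.Agent.H243.CE.Fin
import Pool.Agent.H243.CE.REP
import Pool.Agent.H243.CE.SMALLQ
import Pool.Agent.H243.CE.QCASE
import Pool.Agent.H243.CE.BALLQ

/-!
# MP_16d611_an : all cases of equality in `‖p(A)‖ ≤ c(q) sup_{Ω_q} |p|`

The inequality of the question is a theorem of the library for all `q`.  We determine all matrices
`A` and polynomials `p` for which equality holds, for every `q` with `0 < |q| ≤ 1`.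
-/

namespace Pool.Agent.Results.MP_16d611_an.EqualityCases

open Polynomial Matrix

noncomputable section

/-- The operator on `ℂ^n` (with the Euclidean norm) given by the matrix `B`. -/
def op {n : ℕ} (B : Matrix (Fin n) (Fin n) ℂ) :
    EuclideanSpace ℂ (Fin n) →L[ℂ] EuclideanSpace ℂ (Fin n) :=
  Matrix.toEuclideanCLM (𝕜 := ℂ) (n := Fin n) B

/-- The inner product `⟨x, y⟩ = ∑ xᵢ conj(yᵢ)`, linear in the first argument. -/
def ip {n : ℕ} (x y : EuclideanSpace ℂ (Fin n)) : ℂ := ∑ i, x i * (starRingEnd ℂ) (y i)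

/-- The `q`-numerical range `W_q(A) = {⟨A x, y⟩ : ‖x‖ = ‖y‖ = 1, ⟨x, y⟩ = q}`. -/
def W {n : ℕ} (q : ℂ) (A : Matrix (Fin n) (Fin n) ℂ) : Set ℂ :=
  {w | ∃ x y : EuclideanSpace ℂ (Fin n), ‖x‖ = 1 ∧ ‖y‖ = 1 ∧ ip x y = q ∧ w = ip (op A x) y}

/-- The scaled `q`-numerical range `Ω_q = W_q(A) / q`. -/
def Omega {n : ℕ} (q : ℂ) (A : Matrix (Fin n) (Fin n) ℂ) : Set ℂ :=
  {z | ∃ w ∈ W q A, z = w / q}

/-- The constant `c(q) = max(1, 2|q| / (1 + √(1 - |q|²)))`. -/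
def c (q : ℂ) : ℝ := max 1 (2 * ‖q‖ / (1 + Real.sqrt (1 - ‖q‖ ^ 2)))

/-- `{|p(z)| : z ∈ Ω_q}`. -/
def values {n : ℕ} (q : ℂ) (A : Matrix (Fin n) (Fin n) ℂ) (p : ℂ[X]) : Set ℝ :=
  {r | ∃ z ∈ Omega q A, r = ‖p.eval z‖}

/-- Equality holds in the inequality `‖p(A)‖ ≤ c(q) sup_{Ω_q} |p|`. -/
def Equality {n : ℕ} (q : ℂ) (A : Matrix (Fin n) (Fin n) ℂ) (p : ℂ[X]) : Prop :=
  ‖op (aeval A p)‖ = c q * sSup (values q A p)

/-- `w 0, …, w (k-1)` are the weights of a unilateral shift on the span of `k + 1` orthonormal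
vectors `e 0, …, e k`, which is a direct orthogonal summand of `B`: `B e_j = w_j e_{j+1}`,
`B e_k = 0`, `B^* e_{j+1} = w_j e_j`, `B^* e_0 = 0`. -/
def HasShiftSummand {n : ℕ} (B : Matrix (Fin n) (Fin n) ℂ) (k : ℕ) (w : ℕ → ℝ) : Prop :=
  ∃ e : Fin (k + 1) → EuclideanSpace ℂ (Fin n), Orthonormal ℂ e ∧
    (∀ j : Fin k, op B (e j.castSucc) = ((w j : ℝ) : ℂ) • e j.succ) ∧
    op B (e (Fin.last k)) = 0 ∧
    (∀ j : Fin k, op Bᴴ (e j.succ) = ((w j : ℝ) : ℂ) • e j.castSucc) ∧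
    op Bᴴ (e 0) = 0

/-- The weights `√c(q), 1, …, 1, √c(q)` for `k ≥ 2`, and the one weight `c(q)` for `k = 1`.
For `|q| = 1` this is the Crabb matrix, as `c(q) = 2`. -/
def wt (q : ℂ) (k j : ℕ) : ℝ :=
  (if j = 0 then Real.sqrt (c q) else 1) * (if j + 1 = k then Real.sqrt (c q) else 1)

/-- The extremal pairs of degree `k`: `p = a (z - α)^k`, the set `Ω_q(A)` is the closed disc with
centre `α` and some radius `r > 0`, and `A - α` has, as a direct orthogonal summand, `r` times the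
shift with the weights `wt q k`. -/
def Extremal {n : ℕ} (q : ℂ) (A : Matrix (Fin n) (Fin n) ℂ) (p : ℂ[X]) (k : ℕ) : Prop :=
  ∃ (a α : ℂ) (r : ℝ), a ≠ 0 ∧ 0 < r ∧ p = C a * (X - C α) ^ k ∧
    Omega q A = Metric.closedBall α r ∧
    HasShiftSummand (A - α • (1 : Matrix (Fin n) (Fin n) ℂ)) k (fun j => r * wt q k j)

/-! ### The set `Ω_q` -/

lemma ip_eq {n : ℕ} (x y : EuclideanSpace ℂ (Fin n)) : ip x y = inner ℂ y x := by
  rw [PiLp.inner_apply]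
  simp [ip]

lemma norm_le {n : ℕ} {q : ℂ} {A : Matrix (Fin n) (Fin n) ℂ} {z : ℂ}
    (hz : z ∈ Omega q A) : ‖z‖ ≤ ‖op A‖ / ‖q‖ := by
  obtain ⟨w, ⟨x, y, hx, hy, _, rfl⟩, rfl⟩ := hz
  rw [norm_div, ip_eq]
  gcongr
  calc ‖inner ℂ y (op A x)‖ ≤ ‖y‖ * ‖op A x‖ := norm_inner_le_norm _ _
    _ ≤ ‖y‖ * (‖op A‖ * ‖x‖) := by gcongr; exact (op A).le_opNorm x
    _ = ‖op A‖ := by rw [hx, hy]; ring

lemma bdd {n : ℕ} (q : ℂ) (A : Matrix (Fin n) (Fin n) ℂ) (p : ℂ[X]) :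
    BddAbove (values q A p) := by
  have h2 : IsCompact (Metric.closedBall (0 : ℂ) (‖op A‖ / ‖q‖)) := isCompact_closedBall _ _
  have h3 : Continuous (fun μ : ℂ => ‖p.eval μ‖) := p.continuous.norm
  refine ((h2.image h3).bddAbove).mono ?_
  rintro r ⟨z, hz, rfl⟩
  exact ⟨z, by rw [mem_closedBall_zero_iff]; exact norm_le hz, rfl⟩

/-- the standard way to produce points of `W_q(A)` -/
lemma mem_W {n : ℕ} {q : ℂ} {A : Matrix (Fin n) (Fin n) ℂ} {s : ℝ}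
    (hsq : s ^ 2 * ‖q‖ ^ 2 = 1 - ‖q‖ ^ 2) (x v : EuclideanSpace ℂ (Fin n)) (hx : ‖x‖ = 1)
    (hv : inner ℂ v x = 0) (hvs : ‖v‖ = s) :
    q * (inner ℂ x (op A x) + inner ℂ v (op A x)) ∈ W q A := by
  refine ⟨x, (starRingEnd ℂ) q • (x + v), hx, ?_, ?_, ?_⟩
  · have h1 : ‖(starRingEnd ℂ) q • (x + v)‖ ^ 2 = 1 := by
      rw [norm_smul, mul_pow, RCLike.norm_conj, sq ‖x + v‖,
        norm_add_sq_eq_norm_sq_add_norm_sq_of_inner_eq_zero (𝕜 := ℂ), hx, hvs]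
      · nlinarith
      · rw [← inner_conj_symm, hv, map_zero]
    have h0 : 0 ≤ ‖(starRingEnd ℂ) q • (x + v)‖ := norm_nonneg _
    nlinarith
  · rw [ip_eq, inner_smul_left, inner_add_left, hv, inner_self_eq_norm_sq_to_K, hx]
    simp
  · rw [ip_eq, inner_smul_left, inner_add_left]
    simp

lemma mem_Omega {n : ℕ} {q : ℂ} {A : Matrix (Fin n) (Fin n) ℂ} {s : ℝ} (hs : 0 ≤ s) (hq0 : q ≠ 0)
    (hsq : s ^ 2 * ‖q‖ ^ 2 = 1 - ‖q‖ ^ 2) (z : ℂ) :
    z ∈ Omega q A ↔ ∃ x v : EuclideanSpace ℂ (Fin n), ‖x‖ = 1 ∧ inner ℂ v x = (0 : ℂ) ∧ ‖v‖ = s ∧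
      z = inner ℂ x (op A x) + inner ℂ v (op A x) := by
  constructor
  · rintro ⟨w, ⟨x, y, hx, hy, hxy, rfl⟩, rfl⟩
    rw [ip_eq] at hxy
    have hcq : (starRingEnd ℂ) q ≠ 0 := by
      intro h
      apply hq0
      have := congrArg (starRingEnd ℂ) h
      rwa [Complex.conj_conj, map_zero] at this
    have hxx : inner ℂ x x = (1 : ℂ) := by
      rw [inner_self_eq_norm_sq_to_K, hx]; norm_num
    set v : EuclideanSpace ℂ (Fin n) := ((starRingEnd ℂ) q)⁻¹ • y - x with hv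
    have hyv : y = (starRingEnd ℂ) q • (x + v) := by
      rw [hv, add_sub_cancel, smul_smul, mul_inv_cancel₀ hcq, one_smul]
    have hvx : inner ℂ v x = (0 : ℂ) := by
      rw [hv, inner_sub_left, inner_smul_left, hxy, hxx, map_inv₀, Complex.conj_conj,
        inv_mul_cancel₀ hq0, sub_self]
    refine ⟨x, v, hx, hvx, ?_, ?_⟩
    · have h1 : ‖y‖ ^ 2 = ‖q‖ ^ 2 * (1 + ‖v‖ ^ 2) := by
        rw [hyv, norm_smul, mul_pow, RCLike.norm_conj, sq ‖x + v‖,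
          norm_add_sq_eq_norm_sq_add_norm_sq_of_inner_eq_zero (𝕜 := ℂ), hx]
        · ring
        · rw [← inner_conj_symm, hvx, map_zero]
      rw [hy] at h1
      have hq2 : 0 < ‖q‖ ^ 2 := by
        have := norm_pos_iff.2 hq0
        positivity
      have h2 : ‖v‖ ^ 2 * ‖q‖ ^ 2 = s ^ 2 * ‖q‖ ^ 2 := by nlinarith
      have h3 : ‖v‖ ^ 2 = s ^ 2 := mul_right_cancel₀ hq2.ne' h2
      exact (pow_left_inj₀ (norm_nonneg v) hs two_ne_zero).1 h3
    · rw [ip_eq, hyv, inner_smul_left, inner_add_left, Complex.conj_conj,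
        mul_div_cancel_left₀ _ hq0]
  · rintro ⟨x, v, hx, hvx, hvs, rfl⟩
    exact ⟨_, mem_W hsq x v hx hvx hvs, by rw [mul_div_cancel_left₀ _ hq0]⟩

lemma exists_orth {n : ℕ} (hn : 2 ≤ n) (x : EuclideanSpace ℂ (Fin n)) (hx : ‖x‖ = 1) :
    ∃ v : EuclideanSpace ℂ (Fin n), ‖v‖ = 1 ∧ inner ℂ v x = (0 : ℂ) := by
  obtain ⟨m, rfl⟩ : ∃ m, n = m + 2 := ⟨n - 2, by omega⟩
  have : Fact (Module.finrank ℂ (EuclideanSpace ℂ (Fin (m + 2))) = (m + 1) + 1) :=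
    ⟨by simp⟩
  have hx0 : x ≠ 0 := by
    intro h; rw [h, norm_zero] at hx; exact zero_ne_one hx
  have h1 := Submodule.finrank_orthogonal_span_singleton (𝕜 := ℂ) (n := m + 1) hx0
  have h2 : Nontrivial (Submodule.span ℂ {x})ᗮ := by
    apply Module.nontrivial_of_finrank_pos (R := ℂ)
    rw [h1]; omega
  obtain ⟨v, hv⟩ := exists_ne (0 : (Submodule.span ℂ {x})ᗮ)
  have hv0 : (v : EuclideanSpace ℂ (Fin (m + 2))) ≠ 0 := by
    intro h; apply hv; exact Subtype.ext h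
  have hvn : ‖(v : EuclideanSpace ℂ (Fin (m + 2)))‖ ≠ 0 := norm_ne_zero_iff.2 hv0
  refine ⟨((‖(v : EuclideanSpace ℂ (Fin (m + 2)))‖⁻¹ : ℝ) : ℂ) • v, ?_, ?_⟩
  · rw [norm_smul, Complex.norm_real, norm_inv, norm_norm, inv_mul_cancel₀ hvn]
  · rw [inner_smul_left]
    have : inner ℂ (v : EuclideanSpace ℂ (Fin (m + 2))) x = 0 :=
      (Submodule.mem_orthogonal_singleton_iff_inner_left (𝕜 := ℂ)).1 v.2
    rw [this, mul_zero]

/-! ### The parameters -/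

/-- the parameters `s = √(1-|q|²)/|q|`, `t = |q|/(1+√(1-|q|²))` -/
lemma params {q : ℂ} (hq0 : 0 < ‖q‖) (hq1 : ‖q‖ ≤ 1) : ∃ s t : ℝ, 0 ≤ s ∧ 0 < t ∧ t ≤ 1 ∧
    ‖q‖ * (1 + t ^ 2) = 2 * t ∧ s ^ 2 * ‖q‖ ^ 2 = 1 - ‖q‖ ^ 2 ∧ c q = max 1 (2 * t) ∧
    (‖q‖ = 1 → s = 0 ∧ t = 1) ∧ (‖q‖ < 1 → 0 < s ∧ t < 1) ∧ (4 / 5 < ‖q‖ → 1 < 2 * t) ∧
    (‖q‖ = 4 / 5 → s = 3 / 4 ∧ t = 1 / 2) ∧ (‖q‖ < 4 / 5 → 3 / 4 < s ∧ 2 * t < 1) := by
  set r : ℝ := Real.sqrt (1 - ‖q‖ ^ 2) with hr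
  have hr0 : 0 ≤ r := Real.sqrt_nonneg _
  have hr2 : r ^ 2 = 1 - ‖q‖ ^ 2 := Real.sq_sqrt (by nlinarith)
  refine ⟨r / ‖q‖, ‖q‖ / (1 + r), by positivity, by positivity, ?_, ?_, ?_, ?_, ?_, ?_, ?_, ?_, ?_⟩
  · rw [div_le_one (by positivity)]; linarith
  · field_simp
    nlinarith
  · rw [div_pow, hr2]
    field_simp
  · rw [c, mul_div_assoc]
  · intro h
    have h0 : r = 0 := by
      rw [hr, h]; norm_num
    rw [h0, h]
    norm_num
  · intro h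
    have h0 : 0 < r := by
      rw [hr]
      apply Real.sqrt_pos.2
      nlinarith
    refine ⟨by positivity, ?_⟩
    rw [div_lt_one (by positivity)]
    linarith
  · intro h
    have h0 : r < 3 / 5 := by
      apply lt_of_pow_lt_pow_left₀ 2 (by norm_num)
      rw [hr2]
      nlinarith
    rw [← mul_div_assoc, lt_div_iff₀ (by positivity)]
    linarith
  · intro h
    have h0 : r = 3 / 5 := by
      rw [hr, h]
      have : (1 : ℝ) - (4 / 5) ^ 2 = (3 / 5) ^ 2 := by norm_num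
      rw [this, Real.sqrt_sq (by norm_num)]
    rw [h0, h]
    norm_num
  · intro h
    have h0 : 3 / 5 < r := by
      apply lt_of_pow_lt_pow_left₀ 2 hr0
      rw [hr2]
      nlinarith
    constructor
    · rw [lt_div_iff₀ hq0]
      linarith
    · rw [← mul_div_assoc, div_lt_one (by positivity)]
      linarith

/-! ### Operators -/

open Pool.Agent.H243.CE (Block cw S_REP)

lemma op_aeval {n : ℕ} (A : Matrix (Fin n) (Fin n) ℂ) (p : ℂ[X]) :
    op (aeval A p) = aeval (op A) p := by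
  unfold op
  exact (Polynomial.aeval_algHom_apply (Matrix.toEuclideanCLM (𝕜 := ℂ) (n := Fin n)) A p).symm

lemma op_sub_smul {n : ℕ} (A : Matrix (Fin n) (Fin n) ℂ) (α : ℂ) :
    op (A - α • (1 : Matrix (Fin n) (Fin n) ℂ)) =
      op A - α • (1 : EuclideanSpace ℂ (Fin n) →L[ℂ] EuclideanSpace ℂ (Fin n)) := by
  unfold op
  rw [map_sub, map_smul, map_one]

lemma op_conjTranspose {n : ℕ} (B : Matrix (Fin n) (Fin n) ℂ) (x y : EuclideanSpace ℂ (Fin n)) :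
    inner ℂ (op Bᴴ x) y = inner ℂ x (op B y) := by
  have h : op Bᴴ = ContinuousLinearMap.adjoint (op B) := by
    unfold op
    rw [← Matrix.star_eq_conjTranspose, map_star]
    rfl
  rw [h, ContinuousLinearMap.adjoint_inner_left]

lemma summand_iff {n : ℕ} (B : Matrix (Fin n) (Fin n) ℂ) (k : ℕ) (w : ℕ → ℝ) :
    HasShiftSummand B k w ↔ ∃ e : Fin (k + 1) → EuclideanSpace ℂ (Fin n), Block (op B) k w e := by
  constructor
  · rintro ⟨e, h1, h2, h3, h4, h5⟩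
    refine ⟨e, h1, h2, h3, ?_, ?_⟩
    · intro j u
      rw [← op_conjTranspose, h4 j, inner_smul_left, Complex.conj_ofReal]
    · intro u
      rw [← op_conjTranspose, h5, inner_zero_left]
  · rintro ⟨e, h1, h2, h3, h4, h5⟩
    refine ⟨e, h1, h2, h3, ?_, ?_⟩
    · intro j
      refine ext_inner_right ℂ fun u => ?_
      rw [op_conjTranspose, h4 j u, inner_smul_left, Complex.conj_ofReal]
    · refine ext_inner_right ℂ fun u => ?_
      rw [op_conjTranspose, h5, inner_zero_left]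

lemma c_nonneg (q : ℂ) : 0 ≤ c q := le_trans zero_le_one (le_max_left _ _)

lemma nontriv {n : ℕ} (hn : 1 ≤ n) : Nontrivial (EuclideanSpace ℂ (Fin n)) := by
  have : Nonempty (Fin n) := ⟨⟨0, hn⟩⟩
  infer_instance

/-! ### The inequality -/

lemma Bd_of {n : ℕ} {q : ℂ} {A : Matrix (Fin n) (Fin n) ℂ} {p : ℂ[X]} {s M : ℝ} (hs : 0 ≤ s)
    (hq0 : q ≠ 0) (hsq : s ^ 2 * ‖q‖ ^ 2 = 1 - ‖q‖ ^ 2) (h : ∀ z ∈ Omega q A, ‖p.eval z‖ ≤ M) :
    Q82.QR.Bd (op A) s p M := by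
  intro x v hx hvx hvs
  exact h _ ((mem_Omega hs hq0 hsq _).2 ⟨x, v, hx, hvx, hvs, rfl⟩)

lemma dim_of {n : ℕ} (q : ℂ) (hn : 2 ≤ n ∨ ‖q‖ = 1) {s : ℝ} (h1 : ‖q‖ = 1 → s = 0) :
    s ≠ 0 → ∀ x : EuclideanSpace ℂ (Fin n), ‖x‖ = 1 →
      ∃ v : EuclideanSpace ℂ (Fin n), ‖v‖ = 1 ∧ inner ℂ v x = (0 : ℂ) := by
  intro hs x hx
  rcases hn with hn | hn
  · exact exists_orth hn x hx
  · exact absurd (h1 hn) hs

lemma le_sup {n : ℕ} {q : ℂ} {A : Matrix (Fin n) (Fin n) ℂ} {p : ℂ[X]} :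
    ∀ z ∈ Omega q A, ‖p.eval z‖ ≤ sSup (values q A p) :=
  fun z hz => le_csSup (bdd q A p) ⟨z, hz, rfl⟩

lemma sup_nonneg {n : ℕ} (q : ℂ) (A : Matrix (Fin n) (Fin n) ℂ) (p : ℂ[X]) :
    0 ≤ sSup (values q A p) := by
  apply Real.sSup_nonneg
  rintro _ ⟨z, _, rfl⟩
  exact norm_nonneg _

lemma bound {n : ℕ} (q : ℂ) (A : Matrix (Fin n) (Fin n) ℂ) (p : ℂ[X]) (hn1 : 1 ≤ n)
    (hq0 : 0 < ‖q‖) (hq1 : ‖q‖ ≤ 1) (hn : 2 ≤ n ∨ ‖q‖ = 1) :
    ‖op (aeval A p)‖ ≤ c q * sSup (values q A p) := by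
  obtain ⟨s, t, hs, ht, -, hqt, hsq, hc, h1, -⟩ := params hq0 hq1
  have := nontriv hn1
  rw [op_aeval, hc]
  exact Q82.QR.main_bound hs ht hq0 hqt hsq (sup_nonneg q A p)
    (Bd_of hs (norm_pos_iff.1 hq0) hsq le_sup) (dim_of q hn fun h => (h1 h).1)

lemma omega_nonempty {n : ℕ} (q : ℂ) (A : Matrix (Fin n) (Fin n) ℂ) (hn1 : 1 ≤ n)
    (hq0 : 0 < ‖q‖) (hq1 : ‖q‖ ≤ 1) (hn : 2 ≤ n ∨ ‖q‖ = 1) : (Omega q A).Nonempty := by
  obtain ⟨s, t, hs, ht, -, hqt, hsq, hc, h1, -⟩ := params hq0 hq1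
  have := nontriv hn1
  obtain ⟨x, hx⟩ := exists_norm_eq (EuclideanSpace ℂ (Fin n)) zero_le_one
  by_cases hs0 : s = 0
  · exact ⟨_, (mem_Omega hs (norm_pos_iff.1 hq0) hsq _).2
      ⟨x, 0, hx, inner_zero_left _, by rw [norm_zero, hs0], rfl⟩⟩
  · obtain ⟨v, hv, hvx⟩ := dim_of q hn (fun h => (h1 h).1) hs0 x hx
    refine ⟨_, (mem_Omega hs (norm_pos_iff.1 hq0) hsq _).2
      ⟨x, ((s : ℝ) : ℂ) • v, hx, ?_, ?_, rfl⟩⟩
    · rw [inner_smul_left, hvx, mul_zero]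
    · rw [norm_smul, hv, mul_one, Complex.norm_real, Real.norm_of_nonneg hs]

/-! ### Extremal pairs give equality -/

lemma prod_wt (q : ℂ) (k : ℕ) (hk : 1 ≤ k) (h : k = 1 ∨ ‖q‖ = 1) :
    ∏ i ∈ Finset.range k, wt q k i = c q := by
  rcases h with rfl | h
  · rw [Finset.prod_range_one, wt]
    simp [Real.mul_self_sqrt (c_nonneg q)]
  · have hc : c q = 2 := by
      rw [c, h]; norm_num
    have hw : ∀ i, wt q k i = cw k i := by
      intro i; rw [wt, cw, hc]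
    rw [hc, Finset.prod_congr rfl fun i _ => hw i]
    exact Pool.Agent.H243.CE.t_BPOW.2 k hk

lemma norm_eval_pow (a α z : ℂ) (k : ℕ) :
    ‖(C a * (X - C α) ^ k : ℂ[X]).eval z‖ = ‖a‖ * ‖z - α‖ ^ k := by
  simp [norm_pow]

lemma extremal_eq {n : ℕ} (q : ℂ) (A : Matrix (Fin n) (Fin n) ℂ) (p : ℂ[X]) (hn1 : 1 ≤ n)
    (hq0 : 0 < ‖q‖) (hq1 : ‖q‖ ≤ 1) (hn : 2 ≤ n ∨ ‖q‖ = 1) (k : ℕ) (hk : 1 ≤ k)
    (hkq : k = 1 ∨ ‖q‖ = 1) (h : Extremal q A p k) : Equality q A p := by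
  obtain ⟨a, α, r, ha, hr, hp, hΩ, hS⟩ := h
  obtain ⟨e, he⟩ := (summand_iff _ _ _).1 hS
  have hsup : sSup (values q A p) ≤ ‖a‖ * r ^ k := by
    have hne := omega_nonempty q A hn1 hq0 hq1 hn
    obtain ⟨z0, hz0⟩ := hne
    refine csSup_le ⟨_, z0, hz0, rfl⟩ ?_
    rintro _ ⟨z, hz, rfl⟩
    rw [hΩ, mem_closedBall_iff_norm] at hz
    rw [hp, norm_eval_pow]
    gcongr
  have hlow : ‖a‖ * r ^ k * c q ≤ ‖op (aeval A p)‖ := by
    have h1 := Pool.Agent.H243.CE.t_BPOW.1 _ _ k _ e he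
    have h2 : op (aeval A p) = a • (op (A - α • (1 : Matrix (Fin n) (Fin n) ℂ))) ^ k := by
      rw [op_aeval, hp, map_mul, map_pow, map_sub, aeval_X, aeval_C, aeval_C,
        ← Algebra.smul_def, Algebra.algebraMap_eq_smul_one, op_sub_smul]
    have h3 : ‖(op (aeval A p)) (e 0)‖ = ‖a‖ * r ^ k * c q := by
      rw [h2, _root_.smul_apply, h1, norm_smul, norm_smul, he.on.1, mul_one,
        Finset.prod_mul_distrib, prod_wt q k hk hkq, Finset.prod_const, Finset.card_range,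
        Complex.norm_real, Real.norm_of_nonneg (mul_nonneg (by positivity) (c_nonneg q))]
      ring
    rw [← h3]
    have h4 := (op (aeval A p)).le_opNorm (e 0)
    rwa [he.on.1, mul_one] at h4
  apply le_antisymm (bound q A p hn1 hq0 hq1 hn)
  calc c q * sSup (values q A p) ≤ c q * (‖a‖ * r ^ k) :=
        mul_le_mul_of_nonneg_left hsup (c_nonneg q)
    _ = ‖a‖ * r ^ k * c q := by ring
    _ ≤ _ := hlow

/-! ### Equality gives extremal pairs -/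

/-- normalisation -/
lemma normalise {n : ℕ} (q : ℂ) (A : Matrix (Fin n) (Fin n) ℂ) (p : ℂ[X]) (hn1 : 1 ≤ n)
    (hM : 0 < sSup (values q A p)) (h : Equality q A p) :
    ∃ (m : ℂ) (x : EuclideanSpace ℂ (Fin n)), m ≠ 0 ∧ (∀ z ∈ Omega q A, ‖(C m * p).eval z‖ ≤ 1) ∧
      ‖x‖ = 1 ∧ ‖(aeval (op A) (C m * p)) x‖ = c q := by
  have := nontriv hn1
  set M := sSup (values q A p) with hMd
  obtain ⟨x, hx, hTx⟩ := Pool.Agent.H243.CE.exists_attain (aeval (op A) p)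
  refine ⟨((M⁻¹ : ℝ) : ℂ), x, ?_, ?_, hx, ?_⟩
  · rw [Complex.ofReal_ne_zero]; positivity
  · intro z hz
    rw [eval_mul, eval_C, norm_mul, Complex.norm_real, Real.norm_of_nonneg (by positivity),
      inv_mul_le_iff₀ hM, mul_one]
    exact le_sup z hz
  · rw [map_mul, aeval_C, ← Algebra.smul_def, _root_.smul_apply, norm_smul, Complex.norm_real,
      Real.norm_of_nonneg (by positivity), hTx, ← op_aeval]
    have h1 : ‖op (aeval A p)‖ = c q * M := h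
    rw [h1]
    field_simp

/-- the end of the proof in all cases -/
lemma finish {n : ℕ} {q : ℂ} {A : Matrix (Fin n) (Fin n) ℂ} {p : ℂ[X]} {m : ℂ} (hm : m ≠ 0)
    (hΩ : ∀ z ∈ Omega q A, ‖(C m * p).eval z‖ ≤ 1) {k : ℕ} (hk : 1 ≤ k) {a α : ℂ} {r : ℝ}
    (hp : C m * p = C a * (X - C α) ^ k) (hr : 0 < r) (har : ‖a‖ * r ^ k = 1)
    (hball : Metric.closedBall α r ⊆ Omega q A)
    (hS : HasShiftSummand (A - α • (1 : Matrix (Fin n) (Fin n) ℂ)) k (fun j => r * wt q k j)) :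
    Extremal q A p k := by
  have ha : a ≠ 0 := by
    rintro rfl
    rw [norm_zero, zero_mul] at har
    exact zero_ne_one har
  refine ⟨m⁻¹ * a, α, r, mul_ne_zero (inv_ne_zero hm) ha, hr, ?_, ?_, hS⟩
  · have h1 : p = C m⁻¹ * (C m * p) := by
      rw [← mul_assoc, ← C_mul, inv_mul_cancel₀ hm, C_1, one_mul]
    rw [h1, hp, C_mul, mul_assoc]
  · apply Set.Subset.antisymm _ hball
    intro z hz
    rw [mem_closedBall_iff_norm]
    have h1 := hΩ z hz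
    rw [hp, norm_eval_pow, ← har] at h1
    have h2 : ‖z - α‖ ^ k ≤ r ^ k := le_of_mul_le_mul_left h1 (norm_pos_iff.2 ha)
    exact le_of_pow_le_pow_left₀ (by omega) hr.le h2

lemma mass_zero {n : ℕ} {q : ℂ} {A : Matrix (Fin n) (Fin n) ℂ} {p : ℂ[X]}
    (hM : ¬ 0 < sSup (values q A p)) : ∀ z ∈ Omega q A, p.eval z = 0 := by
  intro z hz
  have h1 := le_sup (p := p) z hz
  exact norm_le_zero_iff.1 (h1.trans (not_lt.1 hM))

lemma zero_eq {n : ℕ} (q : ℂ) (A : Matrix (Fin n) (Fin n) ℂ) (p : ℂ[X]) (hn1 : 1 ≤ n)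
    (hq0 : 0 < ‖q‖) (hq1 : ‖q‖ ≤ 1) (hn : 2 ≤ n ∨ ‖q‖ = 1) (h : ∀ z ∈ Omega q A, p.eval z = 0) :
    Equality q A p := by
  have h1 : sSup (values q A p) ≤ 0 := by
    apply Real.sSup_nonpos
    rintro _ ⟨z, hz, rfl⟩
    rw [h z hz, norm_zero]
  have h2 : sSup (values q A p) = 0 := le_antisymm h1 (sup_nonneg q A p)
  have h3 := bound q A p hn1 hq0 hq1 hn
  rw [h2, mul_zero] at h3
  unfold Equality
  rw [h2, mul_zero]
  exact le_antisymm h3 (norm_nonneg _)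

/-- the case `|q| = 1` -/
lemma case_one {n : ℕ} (q : ℂ) (A : Matrix (Fin n) (Fin n) ℂ) (p : ℂ[X]) (hn1 : 1 ≤ n)
    (hq : ‖q‖ = 1) (hM : 0 < sSup (values q A p)) (h : Equality q A p) :
    ∃ k : ℕ, 1 ≤ k ∧ Extremal q A p k := by
  have hq0 : 0 < ‖q‖ := by rw [hq]; exact one_pos
  obtain ⟨s, t, hs, ht, -, hqt, hsq, hc, h1, -⟩ := params hq0 hq.le
  obtain ⟨hs0, ht1⟩ := h1 hq
  have hc2 : c q = 2 := by rw [hc, ht1]; norm_num
  obtain ⟨m, x, hm, hΩ, hx, hTx⟩ := normalise q A p hn1 hM h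
  have hnum : ∀ w, w ∈ Pool.Agent.W753.CZ.numRange (op A) ↔ w ∈ Omega q A := by
    intro w
    rw [mem_Omega hs (norm_pos_iff.1 hq0) hsq]
    constructor
    · rintro ⟨u, hu, rfl⟩
      exact ⟨u, 0, hu, inner_zero_left _, by rw [norm_zero, hs0], by
        rw [inner_zero_left, add_zero]⟩
    · rintro ⟨u, v, hu, -, hv, rfl⟩
      rw [hs0, norm_eq_zero] at hv
      exact ⟨u, hu, by rw [hv, inner_zero_left, add_zero]⟩
  rw [hc2] at hTx
  obtain ⟨N, a, α, r, e, hN, hp, hr, har, hball, hB⟩ := Pool.Agent.H243.CE.one_case (op A)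
    (C m * p) x (fun w hw => hΩ w ((hnum w).1 hw)) hx hTx
  refine ⟨N, hN, finish hm hΩ hN hp hr har ?_ ?_⟩
  · intro z hz
    rw [← hball] at hz
    exact (hnum z).1 hz
  · rw [summand_iff]
    refine ⟨e, ?_⟩
    have hw : (fun j => r * wt q N j) = fun j => r * cw N j := by
      funext j; rw [wt, cw, hc2]
    rw [hw, op_sub_smul]
    exact hB

/-- the case `4/5 ≤ |q| < 1`, with an orthogonality relation -/
lemma case_q {n : ℕ} (q : ℂ) (A : Matrix (Fin n) (Fin n) ℂ) (p : ℂ[X]) (hn : 2 ≤ n)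
    (hq0 : 0 < ‖q‖) (s t : ℝ) (hs : 0 < s) (ht : 0 < t) (ht1 : t < 1)
    (hqt : ‖q‖ * (1 + t ^ 2) = 2 * t) (hsq : s ^ 2 * ‖q‖ ^ 2 = 1 - ‖q‖ ^ 2) (hc : c q = 2 * t)
    (m : ℂ) (x : EuclideanSpace ℂ (Fin n)) (hm : m ≠ 0)
    (hΩ : ∀ z ∈ Omega q A, ‖(C m * p).eval z‖ ≤ 1) (hx : ‖x‖ = 1)
    (hTx : ‖(aeval (op A) (C m * p)) x‖ = 2 * t)
    (horth : inner ℂ ((aeval (op A) (C m * p)) x) x = (0 : ℂ)) : Extremal q A p 1 := by
  have := nontriv (by omega : 1 ≤ n)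
  have hBd := Bd_of hs.le (norm_pos_iff.1 hq0) hsq hΩ
  obtain ⟨a, α, r, e, hp, hr, har, hB⟩ := Pool.Agent.H243.CE.QCASE.core
    Pool.Agent.H243.CE.t_ALLCASE Pool.Agent.H243.CE.t_CRABB Pool.Agent.H243.CE.t_REP
    _ (op A) (C m * p) s t ‖q‖ hs ht ht1 hq0 hqt hsq hBd (fun x hx => exists_orth hn x hx)
    x hx hTx horth
  refine finish hm hΩ le_rfl (by rw [hp, pow_one]) hr (by rw [pow_one]; exact har) ?_ ?_
  · intro z hz
    rw [mem_Omega hs.le (norm_pos_iff.1 hq0) hsq]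
    exact Pool.Agent.H243.CE.t_BALLQ _ (op A) s t ‖q‖ r α e hs.le ht ht1.le hq0 hqt hsq hr hB z hz
  · rw [summand_iff, op_sub_smul]
    refine ⟨e, ?_⟩
    refine ⟨hB.on, ?_, hB.last, ?_, hB.ad0⟩
    · intro j
      have h1 := hB.sh j
      obtain rfl : j = 0 := Subsingleton.elim _ _
      rw [h1]
      congr 2
      show 2 * t * r = r * wt q 1 0
      rw [wt, if_pos rfl, if_pos rfl, Real.mul_self_sqrt (c_nonneg q), hc]
      ring
    · intro j u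
      have h1 := hB.ad j u
      obtain rfl : j = 0 := Subsingleton.elim _ _
      rw [h1]
      congr 2
      show 2 * t * r = r * wt q 1 0
      rw [wt, if_pos rfl, if_pos rfl, Real.mul_self_sqrt (c_nonneg q), hc]
      ring

lemma two_le {n : ℕ} {q : ℂ} {A : Matrix (Fin n) (Fin n) ℂ} (h : (W q A).Nonempty)
    (hq : ‖q‖ < 1) : 2 ≤ n := by
  obtain ⟨w, x, y, hx, hy, hxy, _⟩ := h
  by_contra hn
  have hn' : n = 0 ∨ n = 1 := by omega
  rcases hn' with rfl | rfl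
  · have : x = 0 := Subsingleton.elim _ _
    rw [this, norm_zero] at hx
    exact zero_ne_one hx
  · rw [EuclideanSpace.norm_eq] at hx hy
    simp only [Fin.sum_univ_one, ip] at hx hy hxy
    rw [Real.sqrt_sq (norm_nonneg _)] at hx hy
    rw [← hxy, norm_mul, RCLike.norm_conj, hx, hy] at hq
    norm_num at hq

lemma exists_eig {n : ℕ} (hn1 : 1 ≤ n) (A : Matrix (Fin n) (Fin n) ℂ) :
    ∃ (μ : ℂ) (x : EuclideanSpace ℂ (Fin n)), ‖x‖ = 1 ∧ op A x = μ • x := by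
  have := nontriv hn1
  obtain ⟨μ, hμ⟩ := Module.End.exists_eigenvalue ((op A : EuclideanSpace ℂ (Fin n) →L[ℂ]
    EuclideanSpace ℂ (Fin n)) : EuclideanSpace ℂ (Fin n) →ₗ[ℂ] EuclideanSpace ℂ (Fin n))
  obtain ⟨v, hv⟩ := hμ.exists_hasEigenvector
  have hv0 : ‖v‖ ≠ 0 := norm_ne_zero_iff.2 hv.2
  have hv1 : op A v = μ • v := hv.apply_eq_smul
  refine ⟨μ, ((‖v‖⁻¹ : ℝ) : ℂ) • v, ?_, ?_⟩
  · rw [norm_smul, Complex.norm_real, norm_inv, norm_norm, inv_mul_cancel₀ hv0]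
  · rw [map_smul, hv1, smul_comm]

/-- a nonconstant polynomial is not zero on `Ω_q(A)` if `A` is not scalar and `|q| < 1` -/
lemma sup_pos {n : ℕ} (q : ℂ) (A : Matrix (Fin n) (Fin n) ℂ) (p : ℂ[X]) (hn : 2 ≤ n)
    (hq0 : 0 < ‖q‖) (s : ℝ) (hs : 0 < s) (hsq : s ^ 2 * ‖q‖ ^ 2 = 1 - ‖q‖ ^ 2)
    (hp : p.natDegree ≠ 0)
    (hA : ∀ μ : ℂ, op A ≠ μ • (1 : EuclideanSpace ℂ (Fin n) →L[ℂ] EuclideanSpace ℂ (Fin n))) :
    0 < sSup (values q A p) := by
  by_contra hM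
  have hz := mass_zero hM
  obtain ⟨μ, x, hx, hAx⟩ := exists_eig (by omega : 1 ≤ n) A
  have hdim : ∀ x : EuclideanSpace ℂ (Fin n), ‖x‖ = 1 →
      ∃ v : EuclideanSpace ℂ (Fin n), ‖v‖ = 1 ∧ inner ℂ v x = (0 : ℂ) :=
    fun x hx => exists_orth hn x hx
  have hB0 : Q82.QR.Bd (op A) s p 0 := Bd_of hs.le (norm_pos_iff.1 hq0) hsq
    fun z h => by rw [hz z h, norm_zero]
  have hB1 : Q82.QR.Bd (op A) s (C 1 + p) 1 := Bd_of hs.le (norm_pos_iff.1 hq0) hsq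
    fun z h => by rw [eval_add, eval_C, hz z h, add_zero, norm_one]
  have h1 := Q82.QR.disc_point hs.le hB0 (fun _ => hdim) x 0 hx (inner_zero_left _)
    (by rw [norm_zero]; exact hs.le)
  have hxx : inner ℂ x x = (1 : ℂ) := by
    rw [inner_self_eq_norm_sq_to_K, hx]; norm_num
  rw [inner_zero_left, add_zero, hAx, inner_smul_right, hxx, mul_one, norm_le_zero_iff] at h1
  have h2 := Pool.Agent.H243.CE.t_EIG _ (op A) (C 1 + p) s hs hB1 hdim
    (by rw [natDegree_C_add]; omega) hA μ x hx hAx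
  rw [eval_add, eval_C, h1, add_zero, norm_one] at h2
  exact lt_irrefl _ h2

lemma nonscalar {n : ℕ} {A : Matrix (Fin n) (Fin n) ℂ}
    (hA : ¬ ∃ μ : ℂ, A = μ • (1 : Matrix (Fin n) (Fin n) ℂ)) (μ : ℂ) :
    op A ≠ μ • (1 : EuclideanSpace ℂ (Fin n) →L[ℂ] EuclideanSpace ℂ (Fin n)) := by
  intro h
  apply hA
  have h1 : op (A - μ • (1 : Matrix (Fin n) (Fin n) ℂ)) = op 0 := by
    rw [op_sub_smul, h, sub_self]
    unfold op
    rw [map_zero]
  have h2 := (Matrix.toEuclideanCLM (𝕜 := ℂ) (n := Fin n)).injective h1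
  exact ⟨μ, sub_eq_zero.1 h2⟩

/-- trivial equality when `c(q) = 1` -/
lemma triv_eq {n : ℕ} (q : ℂ) (A : Matrix (Fin n) (Fin n) ℂ) (p : ℂ[X]) (hn1 : 1 ≤ n)
    (hq0 : 0 < ‖q‖) (hq1 : ‖q‖ ≤ 1) (hn : 2 ≤ n ∨ ‖q‖ = 1) (hc : c q = 1)
    (h : p.natDegree = 0 ∨ ∃ μ : ℂ, A = μ • (1 : Matrix (Fin n) (Fin n) ℂ)) :
    Equality q A p := by
  obtain ⟨s, t, hs, ht, -, hqt, hsq, -⟩ := params hq0 hq1
  have hnt := nontriv hn1
  obtain ⟨x, hx⟩ := exists_norm_eq (EuclideanSpace ℂ (Fin n)) zero_le_one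
  obtain ⟨b, hb1, hb2⟩ : ∃ b : ℂ, (∀ z ∈ Omega q A, p.eval z = b) ∧
      (aeval (op A) p) x = b • x := by
    rcases h with h | ⟨μ, rfl⟩
    · obtain ⟨b, rfl⟩ : ∃ b : ℂ, p = C b := ⟨p.coeff 0, Polynomial.eq_C_of_natDegree_eq_zero h⟩
      refine ⟨b, fun z _ => eval_C, ?_⟩
      rw [aeval_C, Algebra.algebraMap_eq_smul_one]; rfl
    · have hop : ∀ u, op (μ • (1 : Matrix (Fin n) (Fin n) ℂ)) u = μ • u := by
        intro u
        unfold op
        rw [map_smul, map_one]; rfl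
      refine ⟨p.eval μ, ?_, Pool.Agent.H243.CE.RED.aeval_eig _ (hop x) p⟩
      intro z hz
      obtain ⟨u, v, hu, hvu, -, rfl⟩ := (mem_Omega hs (norm_pos_iff.1 hq0) hsq z).1 hz
      have huu : inner ℂ u u = (1 : ℂ) := by
        rw [inner_self_eq_norm_sq_to_K, hu]; norm_num
      rw [hop, inner_smul_right, inner_smul_right, hvu, huu, mul_one, mul_zero, add_zero]
  have hsup : sSup (values q A p) ≤ ‖b‖ := by
    obtain ⟨z0, hz0⟩ := omega_nonempty q A hn1 hq0 hq1 hn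
    refine csSup_le ⟨_, z0, hz0, rfl⟩ ?_
    rintro _ ⟨z, hz, rfl⟩
    rw [hb1 z hz]
  have hlow : ‖b‖ ≤ ‖op (aeval A p)‖ := by
    have h4 := (op (aeval A p)).le_opNorm x
    rw [op_aeval] at h4 ⊢
    rwa [hb2, norm_smul, hx, mul_one, mul_one] at h4
  unfold Equality
  have h5 := bound q A p hn1 hq0 hq1 hn
  rw [hc, one_mul] at h5 ⊢
  exact le_antisymm h5 (hsup.trans hlow)

/-- **All cases of equality.**  Let `A ∈ M_n(ℂ)`, `n ≥ 1`, `0 < |q| ≤ 1`, `W_q(A) ≠ ∅` (that is,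
`n ≥ 2` or `|q| = 1`), and let `p` be a complex polynomial.

* `|q| = 1` (Crouzeix's inequality): `‖p(A)‖ = 2 sup_{W(A)} |p|` if and only if `p` vanishes on
  `W(A)`, or `p = a (z - α)^k` with `a ≠ 0`, `k ≥ 1`, `W(A)` is a closed disc with centre `α` and
  radius `r > 0`, and `A` is an orthogonal direct sum of `α + r K` and another matrix, `K` being the
  Crabb matrix of size `k + 1`.
* `4/5 < |q| < 1`: `‖p(A)‖ = c(q) sup_{Ω_q} |p|` if and only if `p` vanishes on `Ω_q(A)`, or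
  `p = a (z - α)`, `a ≠ 0`, `Ω_q(A)` is a closed disc with centre `α` and radius `r > 0`, and `A` is
  an orthogonal direct sum of `α + r c(q) J` and another matrix, `J` being the nilpotent Jordan
  block of size `2`.
* `|q| = 4/5`, where `c(q) = 1`: the same, with the further trivial cases that `p` is constant or
  `A` is scalar.
* `|q| < 4/5`, where `c(q) = 1`: only the trivial cases. -/
theorem result (n : ℕ) (A : Matrix (Fin n) (Fin n) ℂ) (q : ℂ) (p : ℂ[X]) (hn : 1 ≤ n)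
    (hq0 : 0 < ‖q‖) (hq1 : ‖q‖ ≤ 1) (hW : (W q A).Nonempty) :
    (‖q‖ = 1 → (Equality q A p ↔
      (∀ z ∈ Omega q A, p.eval z = 0) ∨ ∃ k : ℕ, 1 ≤ k ∧ Extremal q A p k)) ∧
    (4 / 5 < ‖q‖ → ‖q‖ < 1 → (Equality q A p ↔
      (∀ z ∈ Omega q A, p.eval z = 0) ∨ Extremal q A p 1)) ∧
    (‖q‖ = 4 / 5 → (Equality q A p ↔
      p.natDegree = 0 ∨ (∃ μ : ℂ, A = μ • (1 : Matrix (Fin n) (Fin n) ℂ)) ∨
        Extremal q A p 1)) ∧
    (‖q‖ < 4 / 5 → (Equality q A p ↔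
      p.natDegree = 0 ∨ ∃ μ : ℂ, A = μ • (1 : Matrix (Fin n) (Fin n) ℂ))) := by
  have hnq : 2 ≤ n ∨ ‖q‖ = 1 := by
    rcases hq1.lt_or_eq with h | h
    · exact Or.inl (two_le hW h)
    · exact Or.inr h
  obtain ⟨s, t, hs, ht, ht1, hqt, hsq, hc, h1, hlt, h45, he45, hl45⟩ := params hq0 hq1
  refine ⟨?_, ?_, ?_, ?_⟩
  · intro hq
    constructor
    · intro h
      by_cases hM : 0 < sSup (values q A p)
      · exact Or.inr (case_one q A p hn hq hM h)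
      · exact Or.inl (mass_zero hM)
    · rintro (h | ⟨k, hk, h⟩)
      · exact zero_eq q A p hn hq0 hq1 hnq h
      · exact extremal_eq q A p hn hq0 hq1 hnq k hk (Or.inr hq) h
  · intro hq45 hqlt
    have h2n : 2 ≤ n := two_le hW hqlt
    obtain ⟨hs0, ht1'⟩ := hlt hqlt
    have h2t := h45 hq45
    have hct : c q = 2 * t := by rw [hc]; exact max_eq_right h2t.le
    constructor
    · intro h
      by_cases hM : 0 < sSup (values q A p)
      · right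
        obtain ⟨m, x, hm, hΩ, hx, hTx⟩ := normalise q A p hn hM h
        rw [hct] at hTx
        have := nontriv hn
        have hBd := Bd_of hs (norm_pos_iff.1 hq0) hsq hΩ
        have horth := Pool.Agent.H243.CE.t_QORTH _ (op A) (C m * p) s t ‖q‖ hs ht hq0 hqt hsq hBd
          (fun _ x hx => exists_orth h2n x hx) h2t x hx hTx
        exact case_q q A p h2n hq0 s t hs0 ht ht1' hqt hsq hct m x hm hΩ hx hTx horth
      · exact Or.inl (mass_zero hM)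
    · rintro (h | h)
      · exact zero_eq q A p hn hq0 hq1 hnq h
      · exact extremal_eq q A p hn hq0 hq1 hnq 1 le_rfl (Or.inl rfl) h
  · intro hq45
    have hqlt : ‖q‖ < 1 := by rw [hq45]; norm_num
    have h2n : 2 ≤ n := two_le hW hqlt
    obtain ⟨hs34, ht12⟩ := he45 hq45
    have hct : c q = 1 := by rw [hc, ht12]; norm_num
    constructor
    · intro h
      by_cases hp : p.natDegree = 0
      · exact Or.inl hp
      by_cases hA : ∃ μ : ℂ, A = μ • (1 : Matrix (Fin n) (Fin n) ℂ)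
      · exact Or.inr (Or.inl hA)
      right; right
      have hs0 : 0 < s := by rw [hs34]; norm_num
      have hM := sup_pos q A p h2n hq0 s hs0 hsq hp (nonscalar hA)
      obtain ⟨m, x, hm, hΩ, hx, hTx⟩ := normalise q A p hn hM h
      have := nontriv hn
      have hBd := Bd_of hs (norm_pos_iff.1 hq0) hsq hΩ
      have hdeg : 1 ≤ (C m * p).natDegree := by
        rw [natDegree_C_mul hm]; omega
      rw [hs34] at hBd
      rw [hct] at hTx
      have horth := Pool.Agent.H243.CE.t_Q45' _ (op A) (C m * p) hBd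
        (fun x hx => exists_orth h2n x hx) hdeg (nonscalar hA) x hx hTx
      exact case_q q A p h2n hq0 s t hs0 ht (by rw [ht12]; norm_num) hqt hsq
        (by rw [hct, ht12]; norm_num) m x hm hΩ hx (by rw [hTx, ht12]; norm_num) horth
    · rintro (h | h | h)
      · exact triv_eq q A p hn hq0 hq1 hnq hct (Or.inl h)
      · exact triv_eq q A p hn hq0 hq1 hnq hct (Or.inr h)
      · exact extremal_eq q A p hn hq0 hq1 hnq 1 le_rfl (Or.inl rfl) h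
  · intro hq45
    have hqlt : ‖q‖ < 1 := by linarith
    have h2n : 2 ≤ n := two_le hW hqlt
    obtain ⟨hs34, ht12⟩ := hl45 hq45
    have hct : c q = 1 := by rw [hc]; exact max_eq_left ht12.le
    constructor
    · intro h
      by_cases hp : p.natDegree = 0
      · exact Or.inl hp
      by_cases hA : ∃ μ : ℂ, A = μ • (1 : Matrix (Fin n) (Fin n) ℂ)
      · exact Or.inr hA
      exfalso
      have hs0 : 0 < s := by linarith
      have hM := sup_pos q A p h2n hq0 s hs0 hsq hp (nonscalar hA)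
      obtain ⟨m, x, hm, hΩ, hx, hTx⟩ := normalise q A p hn hM h
      have := nontriv hn
      have hBd := Bd_of hs (norm_pos_iff.1 hq0) hsq hΩ
      have hdeg : 1 ≤ (C m * p).natDegree := by
        rw [natDegree_C_mul hm]; omega
      have h2 := Pool.Agent.H243.CE.t_SMALLQ Pool.Agent.H243.CE.t_EIG _ (op A) (C m * p) s hs34 hBd
        (fun x hx => exists_orth h2n x hx) hdeg (nonscalar hA)
      have h3 := (aeval (op A) (C m * p)).le_opNorm x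
      rw [hTx, hct, hx, mul_one] at h3
      linarith
    · intro h
      exact triv_eq q A p hn hq0 hq1 hnq hct h

end

end Pool.Agent.Results.MP_16d611_an.EqualityCases
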