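import Pool.Agent.H270.QP.Main
import Pool.Agent.H270.QP.Basic
import Pool.Agent.H270.QP.Moeb
import Pool.Agent.H270.QP.Geom
import Pool.Agent.H270.QP.Nil
import Pool.Agent.H270.QP.Fam
import Pool.Agent.H270.QP.Dense
import Pool.Agent.H270.QP.Up
import Pool.Agent.H270.QP.Root
import Pool.Agent.H270.QP.Max
import Pool.Graph.R_pool_sql_team_seeded_620a6dc7.Results.MP_16d611_an.ScaledRangeBound

/-!
# Exact pointwise inequalities for scaled q-numerical ranges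

Let `Ω_q(A) = {⟨Ax,y⟩/q : ‖x‖ = ‖y‖ = 1, ⟨x,y⟩ = q}`, `K = K(q) = 2|q|/(1+√(1-|q|²))`, let `p` be a
polynomial with `|p| ≤ M` on `Ω_q(A)`, and let `B = p(A)`.

* (pointwise inequality) For every unit vector `x`, with `h = √(‖Bx‖² - |⟨Bx,x⟩|²)` the distance of `Bx`
  to the line `ℂ x`: `K (‖Bx‖² - M²) ≤ (K² - 1) M h`.
* (exactness) For `n ≥ 2`, the closure of the set of all pairs `(⟨Bx,x⟩, ‖Bx‖²)` (over all `A`, all `x` and all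
  `p` with `|p| ≤ 1` on `Ω_q(A)`) is the set of all `(ζ, β)` with `|ζ|² ≤ β` and
  `K (β - 1) ≤ (K² - 1) √(β - |ζ|²)`.
* (exact constants) For all `0 < |q|, |r| ≤ 1` the supremum of `|z|` over all points `z` of `Ω_r(p(A))`, over
  all `A` and all `p` with `|p| ≤ 1` on `Ω_q(A)`, is the explicit number `lam q r`; and `lam q q = 5/4`.
-/

set_option autoImplicit false

open Polynomial Matrix

namespace Pool.Agent.Results.MP_16d611_an.PairConstants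

/-- The `q`-numerical range `W_q(A) = {⟨Ax, y⟩ : ‖x‖ = ‖y‖ = 1, ⟨x, y⟩ = q}`, where
`⟨x, y⟩ = ∑ i, x i * conj (y i)` is `x ⬝ᵥ star y`. -/
def qRange {n : ℕ} (q : ℂ) (A : Matrix (Fin n) (Fin n) ℂ) : Set ℂ :=
  {w | ∃ x y : Fin n → ℂ, x ⬝ᵥ star x = 1 ∧ y ⬝ᵥ star y = 1 ∧ x ⬝ᵥ star y = q ∧
    w = (A *ᵥ x) ⬝ᵥ star y}

/-- The scaled `q`-numerical range `Ω_q(A) = W_q(A) / q`. -/
def scaledRange {n : ℕ} (q : ℂ) (A : Matrix (Fin n) (Fin n) ℂ) : Set ℂ :=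
  {z | ∃ w ∈ qRange q A, z = w / q}

/-- `‖v‖² = ∑ |v i|²`. -/
noncomputable def nsq {n : ℕ} (v : Fin n → ℂ) : ℝ := ∑ i, ‖v i‖ ^ 2

/-- `K(q) = 2|q| / (1 + √(1 - |q|²))`; the constant of the problem is `c(q) = max 1 K(q)`. -/
noncomputable def K (q : ℂ) : ℝ := 2 * ‖q‖ / (1 + √(1 - ‖q‖ ^ 2))

/-- The exact constant for the pair `(q, r)`: with `K = K(q)` and `s = √(1 - |r|²)`, it is `1` if
`s (1 + K²) ≤ 1 - K²`, and `((1 + s) K + (1 - s) / K) / (2 |r|)` otherwise. -/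
noncomputable def lam (q r : ℂ) : ℝ :=
  if √(1 - ‖r‖ ^ 2) * (1 + K q ^ 2) ≤ 1 - K q ^ 2 then 1
  else ((1 + √(1 - ‖r‖ ^ 2)) * K q + (1 - √(1 - ‖r‖ ^ 2)) / K q) / (2 * ‖r‖)

section aux

variable {n : ℕ}

open Pool.Agent.H270.QP Pool.Agent.Helper324_QNR

theorem scaledRange_eq (q : ℂ) (A : Matrix (Fin n) (Fin n) ℂ) :
    scaledRange q A = Om (Matrix.toEuclideanCLM (n := Fin n) (𝕜 := ℂ) A) q :=
  Pool.Agent.Results.MP_16d611_an.ScaledRangeBound.scaledRange_eq q A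

theorem nsq_eq (v : Fin n → ℂ) : nsq v = ‖(WithLp.toLp 2 v : EuclideanSpace ℂ (Fin n))‖ ^ 2 := by
  rw [EuclideanSpace.norm_sq_eq]
  rfl

theorem inner_eq (u v : Fin n → ℂ) :
    inner ℂ (WithLp.toLp 2 v : EuclideanSpace ℂ (Fin n)) (WithLp.toLp 2 u) = u ⬝ᵥ star v :=
  Pool.Agent.Results.MP_16d611_an.ScaledRangeBound.inner_eq u v

theorem norm_iff (v : Fin n → ℂ) :
    ‖(WithLp.toLp 2 v : EuclideanSpace ℂ (Fin n))‖ = 1 ↔ v ⬝ᵥ star v = 1 :=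
  Pool.Agent.Results.MP_16d611_an.ScaledRangeBound.norm_eq_one_iff' v

theorem K_eq (q : ℂ) : K q = Kc q := rfl

theorem lam_eq (q r : ℂ) (hr0 : 0 < ‖r‖) (hr1 : ‖r‖ ≤ 1) :
    lam q r = G (Kc q) (Real.sqrt (1 - ‖r‖ ^ 2)) / ‖r‖ := by
  rw [lam, G, K_eq, sqrt_aux _ hr0.le hr1]
  split_ifs with h
  · rw [div_self hr0.ne']
  · rw [div_div]

theorem clm_aeval (A : Matrix (Fin n) (Fin n) ℂ) (p : ℂ[X]) :
    Matrix.toEuclideanCLM (n := Fin n) (𝕜 := ℂ) (aeval A p) =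
      aeval (Matrix.toEuclideanCLM (n := Fin n) (𝕜 := ℂ) A) p :=
  (Polynomial.aeval_algHom_apply
    ((Matrix.toEuclideanCLM (n := Fin n) (𝕜 := ℂ)).toAlgEquiv.toAlgHom) A p).symm

theorem apply_eq (A : Matrix (Fin n) (Fin n) ℂ) (x : Fin n → ℂ) :
    Matrix.toEuclideanCLM (n := Fin n) (𝕜 := ℂ) A (WithLp.toLp 2 x) = WithLp.toLp 2 (A *ᵥ x) := rfl

end aux

/-- **Theorem.** Let `n ≥ 2` and `0 < |q| ≤ 1`.
(1) If `|p| ≤ M` on `Ω_q(A)` and `B = p(A)`, then `K (‖Bx‖² - M²) ≤ (K² - 1) M √(‖Bx‖² - |⟨Bx,x⟩|²)` for every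
unit vector `x`.
(2) The closure of the set of pairs `(⟨Bx,x⟩, ‖Bx‖²)` is the set of all `(ζ, β)` with `|ζ|² ≤ β` and
`K (β - 1) ≤ (K² - 1) √(β - |ζ|²)`.
(3) For every `r` with `0 < |r| ≤ 1` the supremum of `|z|`, `z ∈ Ω_r(p(A))`, `|p| ≤ 1` on `Ω_q(A)`, is `lam q r`.
(4) `lam q q = 5/4`. -/
theorem result (n : ℕ) (hn : 2 ≤ n) (q : ℂ) (hq0 : 0 < ‖q‖) (hq1 : ‖q‖ ≤ 1) :
    (∀ (A : Matrix (Fin n) (Fin n) ℂ) (p : ℂ[X]) (M : ℝ), (∀ z ∈ scaledRange q A, ‖p.eval z‖ ≤ M) →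
      ∀ x : Fin n → ℂ, x ⬝ᵥ star x = 1 →
        K q * (nsq (aeval A p *ᵥ x) - M ^ 2) ≤ (K q ^ 2 - 1) * M *
          √(nsq (aeval A p *ᵥ x) - ‖(aeval A p *ᵥ x) ⬝ᵥ star x‖ ^ 2)) ∧
    closure {z : ℂ × ℝ | ∃ (A : Matrix (Fin n) (Fin n) ℂ) (p : ℂ[X]) (x : Fin n → ℂ),
        (∀ w ∈ scaledRange q A, ‖p.eval w‖ ≤ 1) ∧ x ⬝ᵥ star x = 1 ∧
          z = ((aeval A p *ᵥ x) ⬝ᵥ star x, nsq (aeval A p *ᵥ x))} =
      {z : ℂ × ℝ | ‖z.1‖ ^ 2 ≤ z.2 ∧ K q * (z.2 - 1) ≤ (K q ^ 2 - 1) * √(z.2 - ‖z.1‖ ^ 2)} ∧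
    (∀ r : ℂ, 0 < ‖r‖ → ‖r‖ ≤ 1 →
      IsLUB {t : ℝ | ∃ (A : Matrix (Fin n) (Fin n) ℂ) (p : ℂ[X]),
        (∀ w ∈ scaledRange q A, ‖p.eval w‖ ≤ 1) ∧ ∃ z ∈ scaledRange r (aeval A p), t = ‖z‖}
        (lam q r)) ∧
    lam q q = 5 / 4 := by
  have ho : Pool.Agent.H270.QP.HasOrth (EuclideanSpace ℂ (Fin n)) :=
    Pool.Agent.Results.MP_16d611_an.ScaledRangeBound.exists_orth hn
  have hb := Pool.Agent.H270.QP.t_basic (EuclideanSpace ℂ (Fin n))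
  have hm := Pool.Agent.H270.QP.t_moeb (EuclideanSpace ℂ (Fin n)) hb
  have hg := Pool.Agent.H270.QP.t_geom (EuclideanSpace ℂ (Fin n))
  have hnil := Pool.Agent.H270.QP.t_nil (EuclideanSpace ℂ (Fin n))
  have hfam := Pool.Agent.H270.QP.t_fam (EuclideanSpace ℂ (Fin n))
  have hde := Pool.Agent.H270.QP.t_dense (EuclideanSpace ℂ (Fin n)) Pool.Agent.H270.QP.t_root hnil hfam
  have hup := Pool.Agent.H270.QP.t_up (EuclideanSpace ℂ (Fin n))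
  have hach := Pool.Agent.H270.QP.t_ach (EuclideanSpace ℂ (Fin n))
  refine ⟨?_, ?_, ?_, ?_⟩
  · intro A p M hM x hx
    have hM0 : 0 ≤ M := by
      obtain ⟨-, ⟨z, hz⟩, -⟩ := Pool.Agent.Results.MP_16d611_an.ScaledRangeBound.result n A q hq0 hq1
        (Or.inl hn) p
      exact (norm_nonneg _).trans (hM z hz)
    have h := Pool.Agent.H270.QP.main_ineq_M hm hg (Matrix.toEuclideanCLM (n := Fin n) (𝕜 := ℂ) A) q
      hq0 hq1 (Or.inr ho) p M hM0 (by rw [← scaledRange_eq]; exact hM) (WithLp.toLp 2 x)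
      ((norm_iff x).mpr hx)
    rw [← clm_aeval, apply_eq, inner_eq, ← nsq_eq] at h
    exact h
  · have h := Pool.Agent.H270.QP.closure_eq hm hg hde ho q hq0 hq1
    have e : {z : ℂ × ℝ | ∃ (A : Matrix (Fin n) (Fin n) ℂ) (p : ℂ[X]) (x : Fin n → ℂ),
        (∀ w ∈ scaledRange q A, ‖p.eval w‖ ≤ 1) ∧ x ⬝ᵥ star x = 1 ∧
          z = ((aeval A p *ᵥ x) ⬝ᵥ star x, nsq (aeval A p *ᵥ x))} =
        Pool.Agent.H270.QP.Sset (EuclideanSpace ℂ (Fin n)) q := by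
      ext z
      constructor
      · rintro ⟨A, p, x, hp, hx, rfl⟩
        refine ⟨Matrix.toEuclideanCLM (n := Fin n) (𝕜 := ℂ) A, p, WithLp.toLp 2 x,
          by rw [← scaledRange_eq]; exact hp, (norm_iff x).mpr hx, ?_⟩
        rw [← clm_aeval, apply_eq, inner_eq, ← nsq_eq]
      · rintro ⟨A, p, x, hp, hx, rfl⟩
        refine ⟨(Matrix.toEuclideanCLM (n := Fin n) (𝕜 := ℂ)).symm A, p, WithLp.ofLp x, ?_,
          (norm_iff _).mp (by simpa using hx), ?_⟩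
        · rw [scaledRange_eq, StarAlgEquiv.apply_symm_apply]
          exact hp
        · have h1 := clm_aeval ((Matrix.toEuclideanCLM (n := Fin n) (𝕜 := ℂ)).symm A) p
          rw [StarAlgEquiv.apply_symm_apply] at h1
          have h2 := apply_eq (aeval ((Matrix.toEuclideanCLM (n := Fin n) (𝕜 := ℂ)).symm A) p)
            (WithLp.ofLp x)
          rw [h1] at h2
          have h3 : (WithLp.toLp 2 (WithLp.ofLp x) : EuclideanSpace ℂ (Fin n)) = x := rfl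
          rw [h3] at h2
          rw [nsq_eq, ← inner_eq, ← h2, h3]
    rw [e, h]
    rfl
  · intro r hr0 hr1
    have h := Pool.Agent.H270.QP.lub hm hg hup hach Pool.Agent.H270.QP.t_max hde ho q hq0 hq1 r hr0 hr1
    rw [lam_eq q r hr0 hr1]
    have e : {t : ℝ | ∃ (A : Matrix (Fin n) (Fin n) ℂ) (p : ℂ[X]),
        (∀ w ∈ scaledRange q A, ‖p.eval w‖ ≤ 1) ∧ ∃ z ∈ scaledRange r (aeval A p), t = ‖z‖} =
        {t : ℝ | ∃ (A : EuclideanSpace ℂ (Fin n) →L[ℂ] EuclideanSpace ℂ (Fin n)) (p : ℂ[X]),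
          (∀ w ∈ Pool.Agent.Helper324_QNR.Om A q, ‖p.eval w‖ ≤ 1) ∧
            ∃ z ∈ Pool.Agent.Helper324_QNR.Om (aeval A p) r, t = ‖z‖} := by
      ext t
      constructor
      · rintro ⟨A, p, hp, z, hz, rfl⟩
        refine ⟨Matrix.toEuclideanCLM (n := Fin n) (𝕜 := ℂ) A, p,
          by rw [← scaledRange_eq]; exact hp, z, ?_, rfl⟩
        rw [← clm_aeval, ← scaledRange_eq]
        exact hz
      · rintro ⟨A, p, hp, z, hz, rfl⟩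
        refine ⟨(Matrix.toEuclideanCLM (n := Fin n) (𝕜 := ℂ)).symm A, p, ?_, z, ?_, rfl⟩
        · rw [scaledRange_eq, StarAlgEquiv.apply_symm_apply]
          exact hp
        · rw [scaledRange_eq, clm_aeval, StarAlgEquiv.apply_symm_apply]
          exact hz
    rw [e]
    exact h
  · rw [lam_eq q q hq0 hq1, Pool.Agent.H270.QP.t_54 q hq0 hq1]
    field_simp

end Pool.Agent.Results.MP_16d611_an.PairConstants
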