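import Pool.Agent.H884.CR.Row
import Pool.Graph.R_pool_sql_team_seeded_620a6dc7.Results.MP_16d611_an.ScaledRangeBound
import Pool.Graph.R_pool_sql_team_seeded_64922ed1.Results.MP_16d611_an.FullBound

/-!
# Crouzeix-type bounds for rows and columns of polynomials

For a complex `n × n` matrix `A`, `0 < |q| ≤ 1`, and finitely many complex polynomials `p₁, …, p_m`

`‖∑ p_i(A)ᴴ p_i(A)‖ ≤ c(q)² sup_{Ω_q} ∑ |p_i|²` and `‖∑ p_i(A) p_i(A)ᴴ‖ ≤ c(q)² sup_{Ω_q} ∑ |p_i|²`,

with the constant `c(q) = max(1, 2|q| / (1 + √(1 - |q|²)))` of the question, which is the question itself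
for `m = 1`. For `q = 1` this says that the numerical range is a `2`-spectral set also for rows and for
columns of polynomials (polynomials with values in `ℂ^m` and in its dual). The constant `c(q)` is the
least possible one, for all `n ≥ 2`, `m ≥ 1`.

The case `m = 1` is in the library. Its proof (`Pool.Agent.W753.CZ.core`) uses the powers of `T = p(A)`,
which commute with the conjugate Cauchy transforms; for columns the powers are replaced by the families
of all products `p_{i₁}(A) ⋯ p_{i_k}(A)` (`Pool/Agent/H884/CR/Words.lean`), the Toeplitz positivity on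
three indices by a positivity for a column, a vector and a family indexed by words (`point_nonneg`), and
the abstract core by `Pool.Agent.H884.CR.core`, for an operator `T : H → K` between different spaces. For
`|q| < 1` the maximising vectors `x` of an extremal column satisfy `⟨p_i(A) x, x⟩ = 0` for all `i`, by
the first variation of the identity of the unit ball of `ℂ^m` (`near_extremal`). The bounds hold for
bounded operators on all Hilbert spaces (`main_col`, `main_row`).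
-/

set_option autoImplicit false

open Polynomial Matrix

namespace Pool.Agent.Results.MP_16d611_an.RowsAndColumns

/-- The `q`-numerical range `W_q(A) = {⟨Ax, y⟩ : ‖x‖ = ‖y‖ = 1, ⟨x, y⟩ = q}`, where
`⟨x, y⟩ = ∑ i, x i * conj (y i)` is `dotProduct x (star y)`. -/
def qRange {n : ℕ} (q : ℂ) (A : Matrix (Fin n) (Fin n) ℂ) : Set ℂ :=
  {w | ∃ x y : Fin n → ℂ, dotProduct x (star x) = 1 ∧ dotProduct y (star y) = 1 ∧
    dotProduct x (star y) = q ∧ w = dotProduct (A.mulVec x) (star y)}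

/-- The scaled `q`-numerical range `Ω_q = W_q(A) / q`. -/
def scaledRange {n : ℕ} (q : ℂ) (A : Matrix (Fin n) (Fin n) ℂ) : Set ℂ :=
  {z | ∃ w ∈ qRange q A, z = w / q}

/-- The constant `c(q) = max(1, 2|q| / (1 + √(1 - |q|²)))`. -/
noncomputable def cq (q : ℂ) : ℝ := max 1 (2 * ‖q‖ / (1 + Real.sqrt (1 - ‖q‖ ^ 2)))

/-- The set of the numbers `∑ |p_i(z)|²`, for `z` in `Ω_q`. -/
def squares {n m : ℕ} (q : ℂ) (A : Matrix (Fin n) (Fin n) ℂ) (p : Fin m → ℂ[X]) : Set ℝ :=
  (fun z => ∑ i, ‖(p i).eval z‖ ^ 2) '' scaledRange q A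

theorem scaledRange_eq {n : ℕ} (q : ℂ) (A : Matrix (Fin n) (Fin n) ℂ) :
    scaledRange q A =
      Pool.Agent.Helper324_QNR.Om (Matrix.toEuclideanCLM (n := Fin n) (𝕜 := ℂ) A) q :=
  ScaledRangeBound.scaledRange_eq q A

theorem bdd {n m : ℕ} (q : ℂ) (A : Matrix (Fin n) (Fin n) ℂ) (p : Fin m → ℂ[X]) :
    BddAbove (squares q A p) := by
  set φ := Matrix.toEuclideanCLM (n := Fin n) (𝕜 := ℂ)
  have hsub : scaledRange q A ⊆ Metric.closedBall 0 (‖φ A‖ / ‖q‖) := by
    rw [scaledRange_eq]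
    rintro z ⟨x, y, hx, hy, _, rfl⟩
    rw [Metric.mem_closedBall, dist_zero_right, norm_div]
    gcongr
    calc ‖(inner ℂ y (φ A x) : ℂ)‖ ≤ ‖y‖ * ‖φ A x‖ := norm_inner_le_norm _ _
      _ ≤ 1 * (‖φ A‖ * ‖x‖) := by rw [hy]; gcongr; exact (φ A).le_opNorm x
      _ = ‖φ A‖ := by rw [hx]; ring
  have hc : IsCompact (Metric.closedBall (0 : ℂ) (‖φ A‖ / ‖q‖)) := isCompact_closedBall _ _
  have hcont : Continuous fun z : ℂ => ∑ i, ‖(p i).eval z‖ ^ 2 :=
    continuous_finsetSum _ fun i _ => by fun_prop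
  exact (hc.bddAbove_image hcont.continuousOn).mono (Set.image_mono hsub)

open scoped Matrix.Norms.L2Operator in
theorem bounds {n m : ℕ} (A : Matrix (Fin n) (Fin n) ℂ) (q : ℂ) (hq0 : 0 < ‖q‖) (hq1 : ‖q‖ ≤ 1)
    (hn : 2 ≤ n ∨ (n = 1 ∧ ‖q‖ = 1)) (p : Fin m → ℂ[X]) :
    ‖∑ i, (aeval A (p i))ᴴ * aeval A (p i)‖ ≤ cq q ^ 2 * sSup (squares q A p) ∧
      ‖∑ i, aeval A (p i) * (aeval A (p i))ᴴ‖ ≤ cq q ^ 2 * sSup (squares q A p) := by
  set φ := Matrix.toEuclideanCLM (n := Fin n) (𝕜 := ℂ) with hφ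
  have hd : ‖q‖ = 1 ∨ ∀ x : EuclideanSpace ℂ (Fin n), ∃ w : EuclideanSpace ℂ (Fin n),
      ‖w‖ = 1 ∧ inner ℂ x w = 0 := by
    rcases hn with h | h
    · exact Or.inr (ScaledRangeBound.exists_orth h)
    · exact Or.inl h.2
  set S := sSup (squares q A p) with hS
  have hS0 : 0 ≤ S := by
    apply Real.sSup_nonneg
    rintro _ ⟨z, _, rfl⟩
    positivity
  have hle : ∀ z ∈ Pool.Agent.Helper324_QNR.Om (φ A) q,
      ∑ i, ‖(p i).eval z‖ ^ 2 ≤ Real.sqrt S ^ 2 := by
    intro z hz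
    rw [Real.sq_sqrt hS0]
    rw [hφ, ← scaledRange_eq] at hz
    exact le_csSup (bdd q A p) ⟨z, hz, rfl⟩
  have hcq : cq q = max 1 (2 / Pool.Agent.Helper324_QNR.kap q) := by
    rw [cq, Pool.Agent.Helper324_QNR.kap, div_div_eq_mul_div]
  have hN : (max 1 (2 / Pool.Agent.Helper324_QNR.kap q) * Real.sqrt S) ^ 2 = cq q ^ 2 * S := by
    rw [mul_pow, Real.sq_sqrt hS0, hcq]
  have hmat : ∀ r : ℂ[X], φ (aeval A r) = aeval (φ A) r := fun r =>
    (Polynomial.aeval_algHom_apply (φ.toAlgEquiv.toAlgHom) A r).symm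
  have hstar : ∀ B : Matrix (Fin n) (Fin n) ℂ, φ Bᴴ = star (φ B) := fun B => map_star φ B
  have hpos : 0 ≤ cq q ^ 2 * S := by positivity
  constructor
  · have h1 := Pool.Agent.H884.CR.norm_sum_star_mul (fun i => aeval (φ A) (p i)) (cq q ^ 2 * S) hpos
      (fun x => by
        have := Pool.Agent.H884.CR.main_col (φ A) q hq0 hq1 hd p (Real.sqrt S)
          (Real.sqrt_nonneg _) hle x
        rwa [hN] at this)
    rw [Matrix.l2_opNorm_def]
    have e : φ (∑ i, (aeval A (p i))ᴴ * aeval A (p i)) =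
        ∑ i, star (aeval (φ A) (p i)) * aeval (φ A) (p i) := by
      rw [map_sum]
      refine Finset.sum_congr rfl fun i _ => ?_
      rw [map_mul, hstar, hmat]
    exact (congrArg norm e).trans_le h1
  · have h1 := Pool.Agent.H884.CR.norm_sum_star_mul (fun i => star (aeval (φ A) (p i)))
      (cq q ^ 2 * S) hpos
      (fun x => by
        have := Pool.Agent.H884.CR.main_row (φ A) q hq0 hq1 hd p (Real.sqrt S)
          (Real.sqrt_nonneg _) hle x
        rwa [hN] at this)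
    rw [Matrix.l2_opNorm_def]
    have e : φ (∑ i, aeval A (p i) * (aeval A (p i))ᴴ) =
        ∑ i, star (star (aeval (φ A) (p i))) * star (aeval (φ A) (p i)) := by
      rw [map_sum]
      refine Finset.sum_congr rfl fun i _ => ?_
      rw [map_mul, hstar, hmat, star_star]
    exact (congrArg norm e).trans_le h1

/-- the families with one nonzero member -/
noncomputable def single {m : ℕ} (hm : 1 ≤ m) (r : ℂ[X]) (i : Fin m) : ℂ[X] :=
  if i = ⟨0, hm⟩ then r else 0

theorem squares_single {n m : ℕ} (hm : 1 ≤ m) (q : ℂ) (A : Matrix (Fin n) (Fin n) ℂ) (r : ℂ[X]) :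
    squares q A (single hm r) = (fun z => ‖r.eval z‖ ^ 2) '' scaledRange q A := by
  have e : ∀ z, ∑ i, ‖(single hm r i).eval z‖ ^ 2 = ‖r.eval z‖ ^ 2 := by
    intro z
    rw [Finset.sum_eq_single (⟨0, hm⟩ : Fin m)]
    · rw [single, if_pos rfl]
    · intro i _ hi
      rw [single, if_neg hi]; simp
    · intro h
      exact absurd (Finset.mem_univ _) h
  simp only [squares, e]

open scoped Matrix.Norms.L2Operator in
theorem lower {n m : ℕ} (hn : 2 ≤ n) (hm : 1 ≤ m) (q : ℂ) (hq0 : 0 < ‖q‖) (hq1 : ‖q‖ ≤ 1) (k : ℝ)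
    (hk0 : 0 ≤ k)
    (hk : ∀ (A : Matrix (Fin n) (Fin n) ℂ) (r : ℂ[X]),
      ‖aeval A r‖ ^ 2 ≤ k ^ 2 * sSup (squares q A (single hm r))) : cq q ≤ k := by
  apply FullBound.lower hn hq0 hq1 k
  intro A r
  have hEq : scaledRange q A = FullBound.Om q A := scaledRange_eq q A
  have hne : (FullBound.Om q A).Nonempty := (FullBound.nonempty_iff A hq0 hq1).mpr (Or.inl hn)
  have hbd := FullBound.bddAbove (q := q) A r
  have hsup0 : 0 ≤ FullBound.supOn q A r := by
    apply Real.sSup_nonneg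
    rintro _ ⟨z, _, rfl⟩
    exact norm_nonneg _
  have h1 := hk A r
  rw [squares_single, hEq] at h1
  have h2 : sSup ((fun z => ‖r.eval z‖ ^ 2) '' FullBound.Om q A) ≤ FullBound.supOn q A r ^ 2 := by
    apply csSup_le (hne.image _)
    rintro _ ⟨z, hz, rfl⟩
    apply pow_le_pow_left₀ (norm_nonneg _)
    exact le_csSup hbd ⟨z, hz, rfl⟩
  have h3 : ‖aeval A r‖ ^ 2 ≤ (k * FullBound.supOn q A r) ^ 2 := by
    rw [mul_pow]
    exact h1.trans (by gcongr)
  have h4 : ‖FullBound.op (aeval A r)‖ = ‖aeval A r‖ := (Matrix.l2_opNorm_def _).symm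
  rw [h4]
  exact le_of_sq_le_sq h3 (by positivity)

open scoped Matrix.Norms.L2Operator in
/-- **Crouzeix-type bounds for rows and columns.** Let `0 < |q| ≤ 1`, and `n ≥ 2` (or `n = 1` and
`|q| = 1`; otherwise `W_q(A)` is empty).
(1) For all complex `n × n` matrices `A` and all `m` and complex polynomials `p₁, …, p_m` the set `Ω_q` is
nonempty, `∑ |p_i|²` is bounded on it, and the operator norms of `∑ p_i(A)ᴴ p_i(A)` and of
`∑ p_i(A) p_i(A)ᴴ` are at most `c(q)² sup_{Ω_q} ∑ |p_i|²`.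
(2) If `n ≥ 2`, then for each `m ≥ 1` the number `c(q)` is the least constant with the property for
the columns, and the least one with the property for the rows. -/
theorem result (n : ℕ) (q : ℂ) (hq0 : 0 < ‖q‖) (hq1 : ‖q‖ ≤ 1) (hn : 2 ≤ n ∨ (n = 1 ∧ ‖q‖ = 1)) :
    (∀ (A : Matrix (Fin n) (Fin n) ℂ) (m : ℕ) (p : Fin m → ℂ[X]),
      (squares q A p).Nonempty ∧ BddAbove (squares q A p) ∧
      ‖∑ i, (aeval A (p i))ᴴ * aeval A (p i)‖ ≤ cq q ^ 2 * sSup (squares q A p) ∧
      ‖∑ i, aeval A (p i) * (aeval A (p i))ᴴ‖ ≤ cq q ^ 2 * sSup (squares q A p)) ∧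
    (2 ≤ n → ∀ m : ℕ, 1 ≤ m →
      IsLeast {k : ℝ | 0 ≤ k ∧ ∀ (A : Matrix (Fin n) (Fin n) ℂ) (p : Fin m → ℂ[X]),
        ‖∑ i, (aeval A (p i))ᴴ * aeval A (p i)‖ ≤ k ^ 2 * sSup (squares q A p)} (cq q) ∧
      IsLeast {k : ℝ | 0 ≤ k ∧ ∀ (A : Matrix (Fin n) (Fin n) ℂ) (p : Fin m → ℂ[X]),
        ‖∑ i, aeval A (p i) * (aeval A (p i))ᴴ‖ ≤ k ^ 2 * sSup (squares q A p)} (cq q)) := by
  have hc0 : 0 ≤ cq q := zero_le_one.trans (le_max_left _ _)
  refine ⟨fun A m p => ⟨?_, bdd q A p, (bounds A q hq0 hq1 hn p).1, (bounds A q hq0 hq1 hn p).2⟩,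
    fun hn2 m hm => ⟨⟨⟨hc0, fun A p => (bounds A q hq0 hq1 hn p).1⟩, ?_⟩,
      ⟨⟨hc0, fun A p => (bounds A q hq0 hq1 hn p).2⟩, ?_⟩⟩⟩
  · apply Set.Nonempty.image
    rw [scaledRange_eq]
    exact (FullBound.nonempty_iff A hq0 hq1).mpr hn
  · rintro k ⟨hk0, hk⟩
    apply lower hn2 hm q hq0 hq1 k hk0
    intro A r
    refine le_trans (le_of_eq ?_) (hk A (single hm r))
    rw [Finset.sum_eq_single (⟨0, hm⟩ : Fin m)]
    · rw [single, if_pos rfl, ← Matrix.star_eq_conjTranspose, CStarRing.norm_star_mul_self, sq]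
    · intro i _ hi
      rw [single, if_neg hi, map_zero, mul_zero]
    · intro h
      exact absurd (Finset.mem_univ _) h
  · rintro k ⟨hk0, hk⟩
    apply lower hn2 hm q hq0 hq1 k hk0
    intro A r
    refine le_trans (le_of_eq ?_) (hk A (single hm r))
    rw [Finset.sum_eq_single (⟨0, hm⟩ : Fin m)]
    · rw [single, if_pos rfl, ← Matrix.star_eq_conjTranspose, CStarRing.norm_self_mul_star, sq]
    · intro i _ hi
      rw [single, if_neg hi, map_zero, zero_mul]
    · intro h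
      exact absurd (Finset.mem_univ _) h

end Pool.Agent.Results.MP_16d611_an.RowsAndColumns
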